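import Pool.Agent.H82.AutConj.Sparse

set_option autoImplicit false

namespace Pool.Agent.H82.AutConj

open Function OrderDual SimpleGraph

section Base
variable {P : Type*} [PartialOrder P] [Finite P]

theorem geom_eq (x : ℝ) (r : ℕ) : 1 + (x - 1) * ∑ j ∈ Finset.range r, x ^ j = x ^ r := by
  induction r with
  | zero => simp
  | succ r ih =>
    rw [Finset.sum_range_succ, mul_add, ← add_assoc, ih, pow_succ]
    ring

/-- If the points removed by a peeling, together with `B`, form a base of `Aut P`. -/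
theorem Peeling.base [Nontrivial P] {r : ℕ} {S : ℕ → Set P} (h : Peeling P r S)
    (hc : (hasse P).Connected) (B : Set P)
    (hB : ∀ g : P ≃o P, (∀ x, x ∉ S r → g x = x) → (∀ x ∈ B, g x = x) → ∀ x, g x = x) :
    (Nat.card (P ≃o P) : ℝ) / (Nat.card (P →o P) : ℝ) ≤
      2 ^ (-(((Nat.card P : ℝ) / 2 - (B.ncard : ℝ) * Real.logb 2 (Nat.card P)) /
        (1 + Real.logb 2 (Nat.card P)) ^ r)) := by
  have hne : Nonempty P := hc.nonempty
  rw [ratio_eq]
  apply Real.rpow_le_rpow_of_exponent_le (by norm_num)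
  rw [neg_le_neg_iff]
  have hnpos : 1 ≤ Nat.card P := Nat.card_pos
  have hn2 : 2 ≤ Nat.card P := Finite.one_lt_card_iff_nontrivial.2 ‹_›
  set L : ℝ := Real.logb 2 (Nat.card P : ℝ) with hL
  have hnR : (2 : ℝ) ≤ Nat.card P := by exact_mod_cast hn2
  have hlog : 1 ≤ L := by
    rw [hL, Real.le_logb_iff_rpow_le (by norm_num) (by linarith)]
    simpa using hnR
  set sg : ℝ := ∑ j ∈ Finset.range r, (1 + L) ^ j with hsg
  have hu := h.main r le_rfl
  have hgeom : 1 + L * sg = (1 + L) ^ r := by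
    have := geom_eq (1 + L) r
    rw [add_sub_cancel_left] at this
    exact this
  have hpow : 0 < (1 + L) ^ r := by positivity
  rw [div_le_iff₀ hpow, ← hgeom]
  -- counting
  have hcard : Nat.card (P ≃o P) ≤ Nat.card P ^ ((S r)ᶜ.ncard + B.ncard) := by
    have h1 := card_aut_le_base (P := P) ∅ ((S r)ᶜ ∪ B) (fun _ x hx => absurd hx (by simp))
      (fun g _ hg => hB g (fun x hx => hg x (Or.inl hx)) (fun x hx => hg x (Or.inr hx)))
    rw [Set.ncard_empty, Nat.factorial_zero, one_mul] at h1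
    refine h1.trans (Nat.pow_le_pow_right hnpos (Set.ncard_union_le _ _))
  have hA : (0 : ℝ) < Nat.card (P ≃o P) := by exact_mod_cast card_aut_pos
  have hE : (0 : ℝ) < Nat.card (P →o P) := by exact_mod_cast card_end_pos
  have h2 : Real.logb 2 (Nat.card (P ≃o P)) ≤ (((S r)ᶜ.ncard : ℝ) + B.ncard) * L := by
    have h3 : (Nat.card (P ≃o P) : ℝ) ≤ (Nat.card P : ℝ) ^ ((S r)ᶜ.ncard + B.ncard) := by
      exact_mod_cast hcard
    have h4 := Real.logb_le_logb_of_le (b := 2) (by norm_num) hA h3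
    rw [Real.logb_pow] at h4
    push_cast at h4
    exact h4
  have h5 : (Nat.card P : ℝ) / 2 ≤ Real.logb 2 (Nat.card (P →o P)) := by
    have h6 := Real.logb_le_logb_of_le (b := 2) (by norm_num) (by positivity)
      (half_lower hc hn2)
    rwa [Real.logb_rpow (by norm_num) (by norm_num)] at h6
  have h7 : ratLog P = Real.logb 2 (Nat.card (P →o P)) - Real.logb 2 (Nat.card (P ≃o P)) := by
    unfold ratLog
    rw [Real.logb_div hE.ne' hA.ne']
  have h8 : ((S r)ᶜ.ncard : ℝ) * L ≤ ratLog P * sg * L :=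
    mul_le_mul_of_nonneg_right hu (by linarith)
  nlinarith

end Base

end Pool.Agent.H82.AutConj
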