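import Pool.Agent.H82.AutConj.Top

set_option autoImplicit false

namespace Pool.Agent.H82.AutConj

open Function OrderDual

section EndLower
variable {P : Type*} [PartialOrder P] [Finite P]

theorem height_fin (x : P) : Order.height x < ⊤ := by
  have := Fintype.ofFinite P
  refine lt_of_le_of_lt (Order.height_le (n := (Fintype.card P : ℕ∞)) (fun p _ => ?_))
    (ENat.coe_lt_top _)
  exact_mod_cast p.length_lt_card.le

/-- rank -/
noncomputable def rk (x : P) : ℕ := (Order.height x).toNat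

theorem rk_coe (x : P) : (rk x : ℕ∞) = Order.height x := by
  unfold rk
  exact ENat.coe_toNat (height_fin x).ne

theorem rk_lt {x y : P} (h : x < y) : rk x < rk y := by
  have h1 := Order.height_strictMono h (height_fin x)
  rw [← rk_coe, ← rk_coe] at h1
  exact_mod_cast h1

theorem rk_pos {x : P} (h : ¬ IsMin x) : 0 < rk x := by
  have h1 : 0 < Order.height x := by
    rw [Order.height_pos]
    exact h
  rw [← rk_coe] at h1
  exact_mod_cast h1

theorem exists_long [Nonempty P] : ∃ (n : ℕ) (q : ℕ → P), (∀ x : P, rk x ≤ n) ∧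
    (∀ i j, i < j → j ≤ n → q i < q j) := by
  obtain ⟨a, ha⟩ := Finite.exists_max (fun x : P => rk x)
  obtain ⟨p, _, hp2⟩ := Order.exists_series_of_height_eq_coe a (n := rk a) (rk_coe a).symm
  refine ⟨rk a, fun i => p ⟨min i (rk a), by omega⟩, ha, ?_⟩
  intro i j hij hj
  apply p.strictMono
  show min i (rk a) < min j (rk a)
  omega

theorem end_lower [Nonempty P] :
    2 ^ ({x : P | ¬ IsMin x} : Set P).ncard ≤ Nat.card (P →o P) := by
  classical
  obtain ⟨n, q, hn, hq⟩ := exists_long (P := P)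
  have hmono : ∀ i j, i ≤ j → j ≤ n → q i ≤ q j := by
    intro i j hij hj
    rcases eq_or_lt_of_le hij with rfl | h
    · exact le_rfl
    · exact (hq i j h hj).le
  have hcard : Nat.card (({x : P | ¬ IsMin x} : Set P) → Bool) =
      2 ^ ({x : P | ¬ IsMin x} : Set P).ncard := by
    rw [Nat.card_fun]
    simp [Set.ncard]
  rw [← hcard]
  let kx : (({x : P | ¬ IsMin x} : Set P) → Bool) → P → ℕ := fun A x =>
    if h : ¬ IsMin x then (if A ⟨x, h⟩ then rk x - 1 else rk x) else rk x
  have hk1 : ∀ A x, kx A x ≤ rk x := by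
    intro A x
    simp only [kx]
    split_ifs <;> omega
  have hk2 : ∀ A x, rk x ≤ kx A x + 1 := by
    intro A x
    simp only [kx]
    split_ifs <;> omega
  refine Nat.card_le_card_of_injective
    (fun A => (⟨fun x => q (kx A x), ?_⟩ : P →o P)) ?_
  · intro x y hxy
    rcases eq_or_lt_of_le hxy with rfl | hlt
    · exact le_rfl
    · have h1 := rk_lt hlt
      have h2 := hk1 A x
      have h3 := hk2 A y
      have h4 := hk1 A y
      have h5 := hn y
      exact hmono _ _ (by omega) (by omega)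
  · intro A B hAB
    funext ⟨x, hx⟩
    have h1 : q (kx A x) = q (kx B x) := congrArg (fun f : P →o P => f x) hAB
    have h2 : kx A x = kx B x := by
      have ha := (hk1 A x).trans (hn x)
      have hb := (hk1 B x).trans (hn x)
      rcases lt_trichotomy (kx A x) (kx B x) with h | h | h
      · exact absurd h1 (hq _ _ h hb).ne
      · exact h
      · exact absurd h1 (hq _ _ h ha).ne'
    have hx' : ¬ IsMin x := hx
    have hpos := rk_pos hx'
    simp only [kx, dif_pos hx'] at h2
    cases hA : A ⟨x, hx⟩ <;> cases hB : B ⟨x, hx⟩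
    · rfl
    · simp [hA, hB] at h2; omega
    · simp [hA, hB] at h2; omega
    · rfl

theorem end_lower' [Nonempty P] :
    2 ^ ({x : P | ¬ IsMax x} : Set P).ncard ≤ Nat.card (P →o P) := by
  have h := end_lower (P := Pᵒᵈ)
  rw [card_end_dual] at h
  have e : ({x : Pᵒᵈ | ¬ IsMin x} : Set Pᵒᵈ) = ({x : P | ¬ IsMax x} : Set P) := by
    rfl
  rw [e] at h
  exact h

theorem upIrr_inv (g : P ≃o P) (x : P) (hx : x ∈ UpIrr (Set.univ : Set P)) :
    g x ∈ UpIrr (Set.univ : Set P) := by
  obtain ⟨_, y, ⟨_, hy2, hy3⟩, hu⟩ := hx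
  refine ⟨trivial, g y, ⟨trivial, g.strictMono hy2, fun z _ hz => ?_⟩, ?_⟩
  · refine hy3 (g.symm z) trivial ⟨?_, ?_⟩
    · rw [g.lt_symm_apply]; exact hz.1
    · rw [g.symm_apply_lt]; exact hz.2
  · rintro w ⟨_, hw2, hw3⟩
    have := hu (g.symm w) ⟨trivial, by rw [g.lt_symm_apply]; exact hw2, fun z _ hz => ?_⟩
    · rw [← this, g.apply_symm_apply]
    · refine hw3 (g z) trivial ⟨g.strictMono hz.1, ?_⟩
      rw [← g.lt_symm_apply]; exact hz.2

theorem downIrr_inv (g : P ≃o P) (x : P) (hx : x ∈ DownIrr (Set.univ : Set P)) :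
    g x ∈ DownIrr (Set.univ : Set P) := by
  obtain ⟨_, y, ⟨_, hy2, hy3⟩, hu⟩ := hx
  refine ⟨trivial, g y, ⟨trivial, g.strictMono hy2, fun z _ hz => ?_⟩, ?_⟩
  · refine hy3 (g.symm z) trivial ⟨?_, ?_⟩
    · rw [g.lt_symm_apply]; exact hz.1
    · rw [g.symm_apply_lt]; exact hz.2
  · rintro w ⟨_, hw2, hw3⟩
    have := hu (g.symm w) ⟨trivial, by rw [g.symm_apply_lt]; exact hw2, fun z _ hz => ?_⟩
    · rw [← this, g.apply_symm_apply]
    · refine hw3 (g z) trivial ⟨?_, g.strictMono hz.2⟩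
      rw [← g.symm_apply_lt]; exact hz.1

/-- automorphisms are counted by their action on an invariant set and on a further set -/
theorem card_aut_le_base (A B : Set P) (hA : ∀ (g : P ≃o P), ∀ x ∈ A, g x ∈ A)
    (hf : ∀ g : P ≃o P, (∀ x ∈ A, g x = x) → (∀ x ∈ B, g x = x) → ∀ x, g x = x) :
    Nat.card (P ≃o P) ≤ (A.ncard).factorial * (Nat.card P) ^ B.ncard := by
  classical
  have hperm : Nat.card (Equiv.Perm A) = (A.ncard).factorial := by
    have := Fintype.ofFinite A
    rw [Nat.card_eq_fintype_card, Fintype.card_perm, ← Nat.card_eq_fintype_card]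
    rfl
  have hfun : Nat.card (B → P) = (Nat.card P) ^ B.ncard := by
    rw [Nat.card_fun]; rfl
  rw [← hperm, ← hfun, ← Nat.card_prod]
  have hiff : ∀ (g : P ≃o P) (x : P), g x ∈ A ↔ x ∈ A := by
    intro g x
    refine ⟨fun h => ?_, hA g x⟩
    have := hA g.symm _ h
    rwa [g.symm_apply_apply] at this
  refine Nat.card_le_card_of_injective (fun g : P ≃o P =>
    (Equiv.Perm.subtypePerm (g.toEquiv : Equiv.Perm P) (fun x => hiff g x),
      fun x : B => g x.1)) ?_
  intro g g' h
  simp only [Prod.mk.injEq] at h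
  obtain ⟨h1, h2⟩ := h
  have hA' : ∀ x ∈ A, g x = g' x := by
    intro x hx
    exact congrArg (fun σ : Equiv.Perm A => (σ ⟨x, hx⟩).1) h1
  have hB' : ∀ x ∈ B, g x = g' x := fun x hx => congrFun h2 ⟨x, hx⟩
  have h3 := hf (g.trans g'.symm) (fun x hx => by simp [hA' x hx]) (fun x hx => by simp [hB' x hx])
  ext x
  have h4 := h3 x
  simp only [OrderIso.trans_apply] at h4
  rw [OrderIso.symm_apply_eq] at h4
  exact h4

/-- the same with two invariant sets -/
theorem card_aut_le_base2 (A B : Set P) (hA : ∀ (g : P ≃o P), ∀ x ∈ A, g x ∈ A)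
    (hB : ∀ (g : P ≃o P), ∀ x ∈ B, g x ∈ B)
    (hf : ∀ g : P ≃o P, (∀ x ∈ A, g x = x) → (∀ x ∈ B, g x = x) → ∀ x, g x = x) :
    Nat.card (P ≃o P) ≤ (A.ncard).factorial * (B.ncard).factorial := by
  classical
  have hperm : ∀ A : Set P, Nat.card (Equiv.Perm A) = (A.ncard).factorial := by
    intro A
    have := Fintype.ofFinite A
    rw [Nat.card_eq_fintype_card, Fintype.card_perm, ← Nat.card_eq_fintype_card]
    rfl
  rw [← hperm, ← hperm, ← Nat.card_prod]
  have hiff : ∀ (A : Set P) (_ : ∀ (g : P ≃o P), ∀ x ∈ A, g x ∈ A) (g : P ≃o P) (x : P),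
      g x ∈ A ↔ x ∈ A := by
    intro A hA g x
    refine ⟨fun h => ?_, hA g x⟩
    have := hA g.symm _ h
    rwa [g.symm_apply_apply] at this
  refine Nat.card_le_card_of_injective (fun g : P ≃o P =>
    (Equiv.Perm.subtypePerm (g.toEquiv : Equiv.Perm P) (fun x => hiff A hA g x),
      Equiv.Perm.subtypePerm (g.toEquiv : Equiv.Perm P) (fun x => hiff B hB g x))) ?_
  intro g g' h
  simp only [Prod.mk.injEq] at h
  obtain ⟨h1, h2⟩ := h
  have hA' : ∀ x ∈ A, g x = g' x := by
    intro x hx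
    exact congrArg (fun σ : Equiv.Perm A => (σ ⟨x, hx⟩).1) h1
  have hB' : ∀ x ∈ B, g x = g' x := by
    intro x hx
    exact congrArg (fun σ : Equiv.Perm B => (σ ⟨x, hx⟩).1) h2
  have h3 := hf (g.trans g'.symm) (fun x hx => by simp [hA' x hx]) (fun x hx => by simp [hB' x hx])
  ext x
  have h4 := h3 x
  simp only [OrderIso.trans_apply] at h4
  rw [OrderIso.symm_apply_eq] at h4
  exact h4

end EndLower

end Pool.Agent.H82.AutConj
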