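import Mathlib

set_option autoImplicit false

namespace Pool.Agent.H82.AutConj

open Function

/-- generic fibre count -/
theorem card_le_of_fibers {A B C : Type*} [Finite B] [Finite C] (φ : A → B)
    (h : ∀ b, ∃ ι : {a // φ a = b} → C, Injective ι) :
    Nat.card A ≤ Nat.card B * Nat.card C := by
  choose ι hι using h
  rw [← Nat.card_prod]
  refine Nat.card_le_card_of_injective (fun a => (φ a, ι (φ a) ⟨a, rfl⟩)) ?_
  intro a a' haa
  simp only [Prod.mk.injEq] at haa
  obtain ⟨h1, h2⟩ := haa
  have key : ∀ (b b' : B) (hb : b = b') (u : {a // φ a = b}) (v : {a // φ a = b'}),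
      ι b u = ι b' v → u.1 = v.1 := by
    intro b b' hb u v huv
    subst hb
    exact congrArg Subtype.val (hι b huv)
  exact key _ _ h1 ⟨a, rfl⟩ ⟨a', rfl⟩ h2

theorem add_one_pow_ge (a k : ℕ) : a ^ (k + 1) + (k + 1) * a ^ k ≤ (a + 1) ^ (k + 1) := by
  induction k with
  | zero => simp
  | succ k ih =>
    calc a ^ (k + 1 + 1) + (k + 1 + 1) * a ^ (k + 1)
        ≤ (a ^ (k + 1) + (k + 1) * a ^ k) * (a + 1) := by
          have : 0 ≤ (k + 1) * a ^ k := Nat.zero_le _
          ring_nf
          nlinarith [this]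
      _ ≤ (a + 1) ^ (k + 1) * (a + 1) := Nat.mul_le_mul_right _ ih
      _ = (a + 1) ^ (k + 1 + 1) := by ring

theorem two_pow_mul_factorial_le (m : ℕ) : 2 ^ m * m.factorial ≤ (m + 1) ^ m := by
  induction m with
  | zero => simp
  | succ m ih =>
    have h1 := add_one_pow_ge (m + 1) m
    calc 2 ^ (m + 1) * (m + 1).factorial = 2 * (m + 1) * (2 ^ m * m.factorial) := by
          rw [Nat.factorial_succ]; ring
      _ ≤ 2 * (m + 1) * (m + 1) ^ m := Nat.mul_le_mul_left _ ih
      _ = (m + 1) ^ (m + 1) + (m + 1) * (m + 1) ^ m := by ring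
      _ ≤ (m + 1 + 1) ^ (m + 1) := h1

section Key
variable {α : Type*} [PartialOrder α]

/-- order-preserving self-maps that are the identity off `L` -/
def EL (L : Finset α) : Type _ := {f : α →o α // ∀ x, x ∉ L → f x = x}
/-- automorphisms that are the identity off `L` -/
def KL (L : Finset α) : Type _ := {g : α ≃o α // ∀ x, x ∉ L → g x = x}

instance [Finite α] : Finite (α →o α) := DFunLike.finite _
instance [Finite α] : Finite (α ≃o α) := DFunLike.finite _
instance [Finite α] (L : Finset α) : Finite (EL L) := by unfold EL; infer_instance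
instance [Finite α] (L : Finset α) : Finite (KL L) := by unfold KL; infer_instance

theorem KL.mem {L : Finset α} (g : KL L) {x : α} (hx : x ∈ L) : g.1 x ∈ L := by
  by_contra h
  have h1 := g.2 _ h
  have h2 := g.1.injective h1
  exact h (h2.symm ▸ hx)

def KL.comp {L : Finset α} (g h : KL L) : KL L :=
  ⟨h.1.trans g.1, fun x hx => by simp [h.2 x hx, g.2 x hx]⟩

def KL.inv {L : Finset α} (g : KL L) : KL L :=
  ⟨g.1.symm, fun x hx => by rw [OrderIso.symm_apply_eq, g.2 x hx]⟩

def KL.one (L : Finset α) : KL L := ⟨OrderIso.refl α, fun _ _ => rfl⟩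

/-- the whole interval from `y` to `x` lies in `L` -/
def Dn (L : Finset α) (x y : α) : Prop := y ≤ x ∧ ∀ z, y ≤ z → z ≤ x → z ∈ L

/-- data of one peeling step -/
structure Step (L c : Finset α) (p : α) : Prop where
  hcL : c ⊆ L
  hp : p ∉ L
  hup : ∀ x ∈ c, x < p ∧ ∀ z, x < z → p ≤ z
  htr : ∀ x ∈ c, ∀ y ∈ c, ∃ g : KL L, g.1 x = y
  hst : ∀ (g : KL L), ∀ x ∈ c, g.1 x ∈ c
  hM : ∀ x ∈ L, ∃ y, x < y ∧ ∀ z, x < z → y ≤ z

theorem Step.dn_up [Finite α] {L c : Finset α} {p : α} (S : Step L c p) {x : α} (hx : x ∈ c) :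
    ∀ y, Dn L x y → ∀ z, y ≤ z → z ≤ x ∨ p ≤ z := by
  intro y
  induction y using WellFoundedGT.induction with
  | ind y ih =>
    intro hD z hz
    rcases eq_or_lt_of_le hz with rfl | hlt
    · exact Or.inl hD.1
    · obtain ⟨y', hy1, hy2⟩ := S.hM y (hD.2 y le_rfl hD.1)
      rcases eq_or_lt_of_le hD.1 with rfl | hyx
      · exact Or.inr ((S.hup _ hx).2 z hlt)
      · exact ih y' hy1 ⟨hy2 x hyx, fun w h1 h2 => hD.2 w (hy1.le.trans h1) h2⟩ z (hy2 z hlt)

theorem Step.dn_unique [Finite α] {L c : Finset α} {p : α} (S : Step L c p) {x x' y : α}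
    (hx : x ∈ c) (hx' : x' ∈ c) (h : Dn L x y) (h' : Dn L x' y) : x = x' := by
  rcases S.dn_up hx y h x' h'.1 with h1 | h1
  · rcases eq_or_lt_of_le h1 with h2 | h2
    · exact h2.symm
    · exact absurd ((S.hup x' hx').2 x h2) (not_le_of_gt (S.hup x hx).1)
  · exact absurd h1 (not_le_of_gt (S.hup x' hx').1)

open Classical in
/-- the chosen transporter -/
noncomputable def Step.gg {L c : Finset α} {p : α} (S : Step L c p) (x y : c) : KL L :=
  (S.htr x.1 x.2 y.1 y.2).choose

theorem Step.gg_spec {L c : Finset α} {p : α} (S : Step L c p) (x y : c) :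
    (S.gg x y).1 x.1 = y.1 := (S.htr x.1 x.2 y.1 y.2).choose_spec

set_option linter.unusedSectionVars false
variable [DecidableEq α]

/-- value on the branch of `x` -/
noncomputable def Step.V {L c : Finset α} {p : α} (S : Step L c p) (τ : c → Option c)
    (e : EL (L \ c)) (x : c) (y : α) : α :=
  match τ x with
  | none => if y = x.1 then p else e.1 y
  | some x' => (S.gg x x').1 (e.1 y)

open Classical in
noncomputable def Step.F {L c : Finset α} {p : α} (S : Step L c p) (τ : c → Option c)
    (e : EL (L \ c)) (y : α) : α :=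
  if h : ∃ x : c, Dn L x.1 y then S.V τ e h.choose y else e.1 y

theorem Step.F_of_dn [Finite α] {L c : Finset α} {p : α} (S : Step L c p) (τ : c → Option c)
    (e : EL (L \ c)) {y : α} (x : c) (h : Dn L x.1 y) : S.F τ e y = S.V τ e x y := by
  have h' : ∃ x : c, Dn L x.1 y := ⟨x, h⟩
  unfold Step.F
  rw [dif_pos h']
  have : h'.choose = x := Subtype.ext (S.dn_unique h'.choose.2 x.2 h'.choose_spec h)
  rw [this]

theorem Step.F_of_not {L c : Finset α} {p : α} (S : Step L c p) (τ : c → Option c)
    (e : EL (L \ c)) {y : α} (h : ¬ ∃ x : c, Dn L x.1 y) : S.F τ e y = e.1 y := by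
  unfold Step.F
  rw [dif_neg h]

theorem EL.fix_c {L c : Finset α} (e : EL (L \ c)) {x : α} (hx : x ∈ c) :
    e.1 x = x := e.2 x (by simp [hx])

theorem EL.fix_out {L c : Finset α} (e : EL (L \ c)) {x : α} (hx : x ∉ L) :
    e.1 x = x := e.2 x (by simp [hx])

theorem Step.not_dn_of_ge {L c : Finset α} {p : α} (S : Step L c p) {b : α} (hb : p ≤ b) :
    ¬ ∃ x : c, Dn L x.1 b := by
  rintro ⟨x, hx⟩
  exact absurd (hb.trans hx.1) (not_le_of_gt (S.hup x.1 x.2).1)

theorem Step.not_dn_of_notMem {L c : Finset α} {b : α} (hb : b ∉ L) :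
    ¬ ∃ x : c, Dn L x.1 b := by
  rintro ⟨x, hx⟩
  exact hb (hx.2 b le_rfl hx.1)

theorem Step.V_le [Finite α] {L c : Finset α} {p : α} (S : Step L c p) (τ : c → Option c)
    (e : EL (L \ c)) (x : c) {y : α} (h : y ≤ x.1) : S.V τ e x y ≤ p := by
  have hex : e.1 y ≤ x.1 := by
    calc e.1 y ≤ e.1 x.1 := e.1.monotone h
      _ = x.1 := e.fix_c x.2
  unfold Step.V
  split
  · split_ifs
    · exact le_rfl
    · exact hex.trans (S.hup x.1 x.2).1.le
  · rename_i x' _
    calc (S.gg x x').1 (e.1 y) ≤ (S.gg x x').1 x.1 := (S.gg x x').1.monotone hex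
      _ = x'.1 := S.gg_spec x x'
      _ ≤ p := (S.hup x'.1 x'.2).1.le

/-- a fixed point below `e b` stays below -/
theorem Step.le_V [Finite α] {L c : Finset α} {p : α} (S : Step L c p) (τ : c → Option c)
    (e : EL (L \ c)) (x : c) {a b : α} (ha : a ∉ L) (hab : a ≤ b) (hb : b ≤ x.1) :
    a ≤ S.V τ e x b := by
  have h1 : a ≤ e.1 b := by
    calc a = e.1 a := (e.fix_out ha).symm
      _ ≤ e.1 b := e.1.monotone hab
  unfold Step.V
  split
  · split_ifs
    · exact (hab.trans hb).trans (S.hup x.1 x.2).1.le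
    · exact h1
  · rename_i x' _
    calc a = (S.gg x x').1 a := ((S.gg x x').2 a ha).symm
      _ ≤ _ := (S.gg x x').1.monotone h1

theorem Step.F_mono_aux [Finite α] {L c : Finset α} {p : α} (S : Step L c p) (τ : c → Option c)
    (e : EL (L \ c)) (x : c) (b : α) (hb : Dn L x.1 b) :
    ∀ a, (¬ ∃ x : c, Dn L x.1 a) → a < b → e.1 a ≤ S.V τ e x b := by
  intro a
  induction a using WellFoundedGT.induction with
  | ind a ih =>
    intro hna hab
    by_cases haL : a ∈ L
    · obtain ⟨a', ha1, ha2⟩ := S.hM a haL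
      have hab' : a' ≤ b := ha2 b hab
      have hna' : ¬ ∃ x : c, Dn L x.1 a' ∧ a' ∈ L := by
        rintro ⟨x', hx', _⟩
        refine hna ⟨x', ha1.le.trans hx'.1, fun z h1 h2 => ?_⟩
        rcases eq_or_lt_of_le h1 with rfl | h3
        · exact haL
        · exact hx'.2 z (ha2 z h3) h2
      by_cases ha'L : a' ∈ L
      · have hna'' : ¬ ∃ x : c, Dn L x.1 a' := fun ⟨x', hx'⟩ => hna' ⟨x', hx', ha'L⟩
        have hlt : a' < b := by
          rcases eq_or_lt_of_le hab' with h | h
          · exact absurd ⟨x, h ▸ hb⟩ hna''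
          · exact h
        exact (e.1.monotone ha1.le).trans (ih a' ha1 hna'' hlt)
      · calc e.1 a ≤ e.1 a' := e.1.monotone ha1.le
          _ = a' := e.fix_out ha'L
          _ ≤ _ := S.le_V τ e x ha'L hab' hb.1
    · rw [e.fix_out haL]
      exact S.le_V τ e x haL hab.le hb.1

theorem Step.F_mono [Finite α] {L c : Finset α} {p : α} (S : Step L c p) (τ : c → Option c)
    (e : EL (L \ c)) : Monotone (S.F τ e) := by
  intro a b hab
  rcases eq_or_lt_of_le hab with rfl | hlt
  · exact le_rfl
  by_cases ha : ∃ x : c, Dn L x.1 a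
  · obtain ⟨x, hx⟩ := ha
    rw [S.F_of_dn τ e x hx]
    rcases S.dn_up x.2 a hx b hab with h1 | h1
    · have hbD : Dn L x.1 b := ⟨h1, fun z h2 h3 => hx.2 z (hab.trans h2) h3⟩
      rw [S.F_of_dn τ e x hbD]
      have hea : e.1 a ≤ e.1 b := e.1.monotone hab
      have hax : a ≠ x.1 := (hlt.trans_le h1).ne
      unfold Step.V
      split
      · rw [if_neg hax]
        split_ifs with h2
        · rw [h2, e.fix_c x.2] at hea
          exact hea.trans (S.hup x.1 x.2).1.le
        · exact hea
      · rename_i x' _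
        exact (S.gg x x').1.monotone hea
    · rw [S.F_of_not τ e (S.not_dn_of_ge h1)]
      calc S.V τ e x a ≤ p := S.V_le τ e x hx.1
        _ = e.1 p := (e.fix_out S.hp).symm
        _ ≤ e.1 b := e.1.monotone h1
  · rw [S.F_of_not τ e ha]
    by_cases hb : ∃ x : c, Dn L x.1 b
    · obtain ⟨x, hx⟩ := hb
      rw [S.F_of_dn τ e x hx]
      exact S.F_mono_aux τ e x b hx a ha hlt
    · rw [S.F_of_not τ e hb]
      exact e.1.monotone hab

theorem Step.F_out [Finite α] {L c : Finset α} {p : α} (S : Step L c p) (τ : c → Option c)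
    (e : EL (L \ c)) {x : α} (hx : x ∉ L) : S.F τ e x = x := by
  rw [S.F_of_not τ e (Step.not_dn_of_notMem hx), e.fix_out hx]

theorem Step.dn_self {L c : Finset α} {p : α} (S : Step L c p) (x : c) : Dn L x.1 x.1 :=
  ⟨le_rfl, fun _ h1 h2 => (le_antisymm h2 h1) ▸ S.hcL x.2⟩

theorem Step.F_self [Finite α] {L c : Finset α} {p : α} (S : Step L c p) (τ : c → Option c)
    (e : EL (L \ c)) (x : c) : S.F τ e x.1 = (match τ x with | none => p | some x' => x'.1) := by
  rw [S.F_of_dn τ e x (S.dn_self x)]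
  unfold Step.V
  cases τ x with
  | none => simp
  | some x' => simp [e.fix_c x.2, S.gg_spec]

noncomputable def Step.Psi [Finite α] {L c : Finset α} {p : α} (S : Step L c p)
    (q : (c → Option c) × EL (L \ c)) : EL L :=
  ⟨⟨S.F q.1 q.2, S.F_mono q.1 q.2⟩, fun _ hx => S.F_out q.1 q.2 hx⟩

theorem Step.Psi_inj [Finite α] {L c : Finset α} {p : α} (S : Step L c p) :
    Injective (S.Psi) := by
  rintro ⟨τ, e⟩ ⟨τ', e'⟩ h
  have hF : ∀ y, S.F τ e y = S.F τ' e' y := by
    intro y
    have := congrArg (fun f : EL L => f.1 y) h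
    exact this
  have hτ : τ = τ' := by
    funext x
    have h1 := hF x.1
    rw [S.F_self, S.F_self] at h1
    cases hx : τ x with
    | none =>
      cases hx' : τ' x with
      | none => rfl
      | some b =>
        rw [hx, hx'] at h1
        simp only at h1
        exact absurd (S.hcL b.2) (h1 ▸ S.hp)
    | some a =>
      cases hx' : τ' x with
      | none =>
        rw [hx, hx'] at h1
        simp only at h1
        exact absurd (S.hcL a.2) (h1.symm ▸ S.hp)
      | some b =>
        rw [hx, hx'] at h1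
        simp only at h1
        rw [Subtype.ext h1]
  subst hτ
  have he : e = e' := by
    apply Subtype.ext
    apply OrderHom.ext
    funext y
    have h1 := hF y
    by_cases hy : ∃ x : c, Dn L x.1 y
    · obtain ⟨x, hx⟩ := hy
      by_cases hyx : y = x.1
      · rw [hyx, e.fix_c x.2, e'.fix_c x.2]
      · rw [S.F_of_dn τ e x hx, S.F_of_dn τ e' x hx] at h1
        unfold Step.V at h1
        cases hτx : τ x with
        | none =>
          rw [hτx] at h1
          simpa [hyx] using h1
        | some x' =>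
          rw [hτx] at h1
          simp only at h1
          exact (S.gg x x').1.injective h1
    · rwa [S.F_of_not τ e hy, S.F_of_not τ e' hy] at h1
  rw [he]

theorem Step.card_E [Finite α] {L c : Finset α} {p : α} (S : Step L c p) :
    (c.card + 1) ^ c.card * Nat.card (EL (L \ c)) ≤ Nat.card (EL L) := by
  have h := Nat.card_le_card_of_injective S.Psi S.Psi_inj
  rw [Nat.card_prod, Nat.card_fun] at h
  simpa [Finite.card_option] using h

theorem Step.card_K [Finite α] {L c : Finset α} {p : α} (S : Step L c p) :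
    Nat.card (KL L) ≤ c.card.factorial * Nat.card (KL (L \ c)) := by
  have hperm : Nat.card (Equiv.Perm c) = c.card.factorial := by
    rw [Nat.card_eq_fintype_card, Fintype.card_perm, Fintype.card_coe]
  rw [← hperm]
  have hiff : ∀ (g : KL L) (x : α), g.1 x ∈ c ↔ x ∈ c := by
    intro g x
    refine ⟨fun h => ?_, S.hst g x⟩
    have := S.hst g.inv _ h
    simpa [KL.inv] using this
  let φ : KL L → Equiv.Perm c := fun g =>
    Equiv.Perm.subtypePerm (g.1.toEquiv : Equiv.Perm α) (fun x => hiff g x)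
  have hφ : ∀ (g : KL L) (x : c), ((φ g) x).1 = g.1 x.1 := fun g x => rfl
  refine card_le_of_fibers φ ?_
  intro σ
  by_cases hσ : ∃ g, φ g = σ
  · obtain ⟨g0, hg0⟩ := hσ
    refine ⟨fun g => ⟨g.1.1.trans g0.1.symm, ?_⟩, ?_⟩
    · intro x hx
      have hx' : x ∉ L ∨ x ∈ c := by
        by_contra hcon
        push Not at hcon
        exact hx (by simp [hcon.1, hcon.2])
      have : g.1.1 x = g0.1 x := by
        rcases hx' with h | h
        · rw [g.1.2 x h, g0.2 x h]
        · have h1 := hφ g.1 ⟨x, h⟩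
          have h2 := hφ g0 ⟨x, h⟩
          rw [g.2] at h1
          rw [hg0] at h2
          exact h1.symm.trans h2
      simp [this]
    · intro g g' hgg
      apply Subtype.ext
      apply Subtype.ext
      have h1 := congrArg Subtype.val hgg
      ext x
      have h2 := congrArg (fun f : α ≃o α => f x) h1
      simpa using h2
  · exact ⟨fun g => absurd ⟨g.1, g.2⟩ hσ, fun g => absurd ⟨g.1, g.2⟩ hσ⟩

end Key

theorem key {α : Type*} [PartialOrder α] [Finite α] (L : Finset α)
    (hM : ∀ x ∈ L, ∃ y, x < y ∧ ∀ z, x < z → y ≤ z) :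
    2 ^ L.card * Nat.card (KL L) ≤ Nat.card (EL L) := by
  classical
  induction L using Finset.strongInduction with
  | H L ih =>
    rcases L.eq_empty_or_nonempty with rfl | hne
    · have h1 : Nat.card (KL (∅ : Finset α)) ≤ 1 := by
        rw [Finite.card_le_one_iff_subsingleton]
        refine ⟨fun g g' => Subtype.ext ?_⟩
        ext x
        rw [g.2 x (by simp), g'.2 x (by simp)]
      have h2 : 0 < Nat.card (EL (∅ : Finset α)) := by
        have : Nonempty (EL (∅ : Finset α)) := ⟨⟨OrderHom.id, fun _ _ => rfl⟩⟩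
        exact Nat.card_pos
      simp
      omega
    · obtain ⟨x0, hx0, hmax⟩ := L.exists_maximal hne
      obtain ⟨p, hp1, hp2⟩ := hM x0 hx0
      have hpL : p ∉ L := fun h => absurd (hmax h hp1.le) (not_le_of_gt hp1)
      let c : Finset α := L.filter (fun y => ∃ g : KL L, g.1 x0 = y)
      have hc : ∀ y, y ∈ c ↔ ∃ g : KL L, g.1 x0 = y := by
        intro y
        simp only [c, Finset.mem_filter]
        refine ⟨fun h => h.2, fun h => ⟨?_, h⟩⟩
        obtain ⟨g, rfl⟩ := h
        exact g.mem hx0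
      have S : Step L c p := by
        refine ⟨Finset.filter_subset _ _, hpL, ?_, ?_, ?_, hM⟩
        · intro x hx
          obtain ⟨g, rfl⟩ := (hc x).1 hx
          refine ⟨?_, fun z hz => ?_⟩
          · calc g.1 x0 < g.1 p := g.1.strictMono hp1
              _ = p := g.2 p hpL
          · have h1 : x0 < g.1.symm z := by
              rw [← g.1.symm_apply_apply x0]
              exact g.1.symm.strictMono hz
            calc p = g.1 p := (g.2 p hpL).symm
              _ ≤ g.1 (g.1.symm z) := g.1.monotone (hp2 _ h1)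
              _ = z := g.1.apply_symm_apply z
        · intro x hx y hy
          obtain ⟨g, rfl⟩ := (hc x).1 hx
          obtain ⟨h, rfl⟩ := (hc y).1 hy
          exact ⟨h.comp g.inv, by simp [KL.comp, KL.inv]⟩
        · intro g x hx
          obtain ⟨h, rfl⟩ := (hc x).1 hx
          exact (hc _).2 ⟨g.comp h, by simp [KL.comp]⟩
      have hx0c : x0 ∈ c := (hc x0).2 ⟨KL.one L, rfl⟩
      have hss : L \ c ⊂ L := by
        refine Finset.ssubset_iff_subset_ne.2 ⟨Finset.sdiff_subset, fun h => ?_⟩
        have : x0 ∈ L \ c := by rw [h]; exact hx0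
        exact (Finset.mem_sdiff.1 this).2 hx0c
      have hIH := ih (L \ c) hss (fun x hx => hM x (Finset.mem_sdiff.1 hx).1)
      have hcard : L.card = (L \ c).card + c.card := (Finset.card_sdiff_add_card_eq_card S.hcL).symm
      calc 2 ^ L.card * Nat.card (KL L)
          ≤ 2 ^ L.card * (c.card.factorial * Nat.card (KL (L \ c))) :=
            Nat.mul_le_mul_left _ S.card_K
        _ = (2 ^ c.card * c.card.factorial) * (2 ^ (L \ c).card * Nat.card (KL (L \ c))) := by
            rw [hcard, pow_add]; ring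
        _ ≤ (c.card + 1) ^ c.card * Nat.card (EL (L \ c)) :=
            Nat.mul_le_mul (two_pow_mul_factorial_le _) hIH
        _ ≤ Nat.card (EL L) := S.card_E

end Pool.Agent.H82.AutConj
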