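import Pool.Agent.H82.AutConj.Tree

set_option autoImplicit false

namespace Pool.Agent.H82.AutConj

open Function OrderDual SimpleGraph

/-- `P` is dismantlable: its elements can be listed so that each one but the last has exactly one
upper cover or exactly one lower cover in the subposet of the elements not listed before it. -/
def Dismantlable (P : Type*) [PartialOrder P] : Prop :=
  ∃ n : ℕ, ∃ e : Fin n ≃ P, ∀ i : Fin n, i.val + 1 < n →
    ((∃! y : P, (∃ j : Fin n, i ≤ j ∧ e j = y) ∧ e i < y ∧
        ∀ z : P, (∃ j : Fin n, i ≤ j ∧ e j = z) → ¬ (e i < z ∧ z < y)) ∨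
     (∃! y : P, (∃ j : Fin n, i ≤ j ∧ e j = y) ∧ y < e i ∧
        ∀ z : P, (∃ j : Fin n, i ≤ j ∧ e j = z) → ¬ (y < z ∧ z < e i)))

section Sparse
variable {P : Type*} [PartialOrder P] [Finite P]

theorem reachable_of_le {a b : P} (h : a ≤ b) : (hasse P).Reachable a b := by
  classical
  have := Fintype.ofFinite P
  have hl : LocallyFiniteOrder P := Fintype.toLocallyFiniteOrder
  have h1 := (le_iff_reflTransGen_covBy (x := a) (y := b)).1 h
  clear h
  induction h1 with
  | refl => exact Reachable.refl _
  | tail _ hbc ih => exact ih.trans (Adj.reachable (Or.inl hbc))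

theorem Dismantlable.connected [Nonempty P] (h : Dismantlable P) : (hasse P).Connected := by
  obtain ⟨n, e, he⟩ := h
  have hn : 0 < n := by
    obtain ⟨x⟩ := ‹Nonempty P›
    exact Nat.lt_of_le_of_lt (Nat.zero_le _) (e.symm x).2
  let last : Fin n := ⟨n - 1, by omega⟩
  have key : ∀ m : ℕ, ∀ i : Fin n, n - 1 - i.val = m → (hasse P).Reachable (e i) (e last) := by
    intro m
    induction m using Nat.strong_induction_on with
    | _ m ih =>
      intro i hi
      by_cases hlast : i.val + 1 < n
      · have hne : ∀ j : Fin n, i ≤ j → e i ≠ e j → n - 1 - j.val < m := by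
          intro j hij hneq
          have h1 : i ≠ j := fun h => hneq (by rw [h])
          have h2 : i.val < j.val := lt_of_le_of_ne hij (fun h => h1 (Fin.ext h))
          have := j.2
          omega
        rcases he i hlast with ⟨y, ⟨⟨j, hij, hj⟩, hlt, _⟩, _⟩ | ⟨y, ⟨⟨j, hij, hj⟩, hlt, _⟩, _⟩
        · have h1 := ih _ (hne j hij (by rw [hj]; exact hlt.ne)) j rfl
          rw [hj] at h1
          exact (reachable_of_le hlt.le).trans h1
        · have h1 := ih _ (hne j hij (by rw [hj]; exact hlt.ne')) j rfl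
          rw [hj] at h1
          exact (reachable_of_le hlt.le).symm.trans h1
      · have : i = last := by
          apply Fin.ext
          show i.val = n - 1
          have := i.2
          omega
        rw [this]
  refine ⟨fun a b => ?_⟩
  have ha := key _ (e.symm a) rfl
  have hb := key _ (e.symm b) rfl
  rw [e.apply_symm_apply] at ha hb
  exact ha.trans hb.symm

/-- without three-element chains, dismantlable posets have at most `n - 1` covering pairs -/
theorem Dismantlable.edges [Nonempty P] (h : Dismantlable P) (h3 : ∀ x y z : P, x < y → ¬ y < z) :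
    (hasse P).edgeSet.ncard ≤ Nat.card P - 1 := by
  classical
  obtain ⟨n, e, he⟩ := h
  have hcard : Nat.card P = n := by
    rw [← Nat.card_congr e, Nat.card_eq_fintype_card, Fintype.card_fin]
  rw [hcard]
  -- the only comparable later element
  have hone : ∀ i : Fin n, i.val + 1 < n → ∃ y : P, ∀ j : Fin n, i < j →
      (e i < e j ∨ e j < e i) → e j = y := by
    intro i hi
    rcases he i hi with ⟨y, ⟨_, hlt, _⟩, hu⟩ | ⟨y, ⟨_, hlt, _⟩, hu⟩
    · refine ⟨y, fun j hij hc => ?_⟩
      rcases hc with hc | hc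
      · exact hu (e j) ⟨⟨j, hij.le, rfl⟩, hc, fun z _ hz => h3 _ _ _ hz.1 hz.2⟩
      · exact absurd hlt (h3 _ _ _ hc)
    · refine ⟨y, fun j hij hc => ?_⟩
      rcases hc with hc | hc
      · exact absurd hc (h3 _ _ _ hlt)
      · exact hu (e j) ⟨⟨j, hij.le, rfl⟩, hc, fun z _ hz => h3 _ _ _ hz.1 hz.2⟩
  choose! y hy using hone
  have hsub : (hasse P).edgeSet ⊆
      (fun i : Fin n => s(e i, y i)) '' {i : Fin n | i.val + 1 < n} := by
    intro E hE
    induction E using Sym2.ind with
    | _ a b =>
      rw [mem_edgeSet] at hE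
      have hcomp : a < b ∨ b < a := by
        rcases hE with h | h
        · exact Or.inl h.1
        · exact Or.inr h.1
      obtain ⟨i, rfl⟩ := e.surjective a
      obtain ⟨j, rfl⟩ := e.surjective b
      have hij : i ≠ j := by
        rintro rfl
        rcases hcomp with h | h <;> exact lt_irrefl _ h
      rcases lt_or_gt_of_ne hij with h | h
      · have hi : i.val + 1 < n := by
          have := j.2
          have : i.val < j.val := h
          omega
        refine ⟨i, hi, ?_⟩
        simp only
        rw [← hy i hi j h hcomp]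
      · have hj : j.val + 1 < n := by
          have := i.2
          have : j.val < i.val := h
          omega
        refine ⟨j, hj, ?_⟩
        simp only
        rw [← hy j hj i h hcomp.symm, Sym2.eq_swap]
  have h1 : {i : Fin n | i.val + 1 < n}.ncard ≤ n - 1 := by
    have h2 : (Fin.val '' {i : Fin n | i.val + 1 < n}) ⊆ ((Finset.range (n - 1) : Finset ℕ) : Set ℕ) := by
      rintro _ ⟨i, hi, rfl⟩
      have hi' : i.val + 1 < n := hi
      simp only [Finset.coe_range, Set.mem_Iio]
      omega
    have h4 := Set.ncard_le_ncard h2 (Finset.finite_toSet _)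
    rw [Set.ncard_image_of_injective _ Fin.val_injective, Set.ncard_coe_finset,
      Finset.card_range] at h4
    exact h4
  calc (hasse P).edgeSet.ncard
      ≤ ((fun i : Fin n => s(e i, y i)) '' {i : Fin n | i.val + 1 < n}).ncard :=
        Set.ncard_le_ncard hsub
    _ ≤ {i : Fin n | i.val + 1 < n}.ncard := Set.ncard_image_le
    _ ≤ n - 1 := h1

theorem half_lower (hc : (hasse P).Connected) (hn : 2 ≤ Nat.card P) :
    (2 : ℝ) ^ ((Nat.card P : ℝ) / 2) ≤ Nat.card (P →o P) := by
  have hne : Nonempty P := hc.nonempty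
  have hnt : Nontrivial P := by
    rw [← Finite.one_lt_card_iff_nontrivial]
    omega
  have h1 : Nat.card P ≤ ({x : P | ¬ IsMin x} : Set P).ncard
      + ({x : P | ¬ IsMax x} : Set P).ncard := by
    have hu : (Set.univ : Set P) ⊆ ({x : P | ¬ IsMin x} : Set P) ∪ {x : P | ¬ IsMax x} := by
      intro x _
      obtain ⟨w, hw⟩ := hc.preconnected.exists_adj_of_nontrivial x
      rcases hw with hw | hw
      · right
        exact fun h => absurd (h hw.1.le) (not_le_of_gt hw.1)
      · left
        exact fun h => absurd (h hw.1.le) (not_le_of_gt hw.1)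
    have h2 := Set.ncard_le_ncard hu
    rw [Set.ncard_univ] at h2
    exact h2.trans (Set.ncard_union_le _ _)
  have h1' : (Nat.card P : ℝ) ≤ (({x : P | ¬ IsMin x} : Set P).ncard : ℝ)
      + (({x : P | ¬ IsMax x} : Set P).ncard : ℝ) := by exact_mod_cast h1
  have hL : (2 : ℝ) ^ (({x : P | ¬ IsMin x} : Set P).ncard) ≤ Nat.card (P →o P) := by
    exact_mod_cast end_lower (P := P)
  have hR : (2 : ℝ) ^ (({x : P | ¬ IsMax x} : Set P).ncard) ≤ Nat.card (P →o P) := by
    exact_mod_cast end_lower' (P := P)
  rcases le_total ((Nat.card P : ℝ) / 2) (({x : P | ¬ IsMin x} : Set P).ncard : ℝ) with h | h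
  · refine le_trans ?_ hL
    rw [← Real.rpow_natCast]
    exact Real.rpow_le_rpow_of_exponent_le (by norm_num) h
  · refine le_trans ?_ hR
    rw [← Real.rpow_natCast]
    exact Real.rpow_le_rpow_of_exponent_le (by norm_num) (by linarith)

theorem ratio_sparse (hc : (hasse P).Connected) :
    (Nat.card (P ≃o P) : ℝ) / (Nat.card (P →o P) : ℝ) ≤
      2 ^ (((hasse P).edgeSet.ncard : ℝ) + 2 - Nat.card P
        - (Nat.card P : ℝ) / (4 * Real.logb 2 (Nat.card P))) := by
  obtain ⟨B, hBcard, hB⟩ := exists_base hc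
  set n := Nat.card P with hn
  set e := (hasse P).edgeSet.ncard with he
  have hne : Nonempty P := hc.nonempty
  have hnpos : 1 ≤ n := Nat.card_pos
  have hen : n ≤ e + 1 := by omega
  have henR : (n : ℝ) ≤ e + 1 := by exact_mod_cast hen
  set c : ℝ := (e : ℝ) + 1 - n with hcdef
  have hc0 : 0 ≤ c := by linarith
  have hexp : ((e : ℝ) + 2 - n - (n : ℝ) / (4 * Real.logb 2 n))
      = 1 + c - (n : ℝ) / (4 * Real.logb 2 n) := by rw [hcdef]; ring
  rw [hexp]
  rcases le_or_gt ((n : ℝ) / (4 * Real.logb 2 n)) (1 + c) with hle | hgt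
  · refine ratio_le_one.trans ?_
    exact Real.one_le_rpow (by norm_num) (by linarith)
  · have hn2 : 2 ≤ n := by
      by_contra h
      have : n = 1 := by omega
      rw [this] at hgt
      simp at hgt
      linarith
    have hnR : (2 : ℝ) ≤ n := by exact_mod_cast hn2
    have hlog : 1 ≤ Real.logb 2 (n : ℝ) := by
      rw [Real.le_logb_iff_rpow_le (by norm_num) (by linarith)]
      simpa using hnR
    set q : ℝ := (n : ℝ) / (4 * Real.logb 2 n) - c with hq
    have hq0 : 0 ≤ q := by linarith
    set k := ⌊q⌋₊ with hk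
    have hkq : (k : ℝ) ≤ q := Nat.floor_le hq0
    have hkq' : q < k + 1 := Nat.lt_floor_add_one q
    have h4 : 0 < 4 * Real.logb 2 (n : ℝ) := by linarith
    have hkc : (2 * (k : ℝ) + 2 * c) * Real.logb 2 n ≤ (n : ℝ) / 2 := by
      have h1 : (k : ℝ) + c ≤ (n : ℝ) / (4 * Real.logb 2 n) := by linarith
      rw [le_div_iff₀ h4] at h1
      linarith
    have hkn : 2 * k + 1 ≤ n := by
      have h0 : (0 : ℝ) ≤ k := Nat.cast_nonneg _
      have h1 : 2 * (k : ℝ) ≤ (n : ℝ) / 2 := by nlinarith
      have h2 : 2 * (k : ℝ) + 1 ≤ n := by linarith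
      exact_mod_cast h2
    have hBn : (B.ncard : ℝ) ≤ 2 * c := by
      have : (B.ncard : ℝ) + 2 * n ≤ 2 * (e + 1) := by exact_mod_cast hBcard
      rw [hcdef]; linarith
    have hmain : 2 ^ k * Nat.card (P ≃o P) ≤ Nat.card (P →o P) := by
      rcases le_or_gt k (DownIrr (Set.univ : Set P)).ncard with hJ | hJ
      · calc 2 ^ k * Nat.card (P ≃o P)
            ≤ 2 ^ (DownIrr (Set.univ : Set P)).ncard * Nat.card (P ≃o P) :=
              Nat.mul_le_mul_right _ (Nat.pow_le_pow_right (by norm_num) hJ)
          _ ≤ _ := one_round_down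
      rcases le_or_gt k (UpIrr (Set.univ : Set P)).ncard with hM | hM
      · calc 2 ^ k * Nat.card (P ≃o P)
            ≤ 2 ^ (UpIrr (Set.univ : Set P)).ncard * Nat.card (P ≃o P) :=
              Nat.mul_le_mul_right _ (Nat.pow_le_pow_right (by norm_num) hM)
          _ ≤ _ := one_round_up
      set I : Set P := DownIrr (Set.univ : Set P) ∪ UpIrr (Set.univ : Set P) with hI
      have hIcard : I.ncard ≤ 2 * k := by
        have := Set.ncard_union_le (DownIrr (Set.univ : Set P)) (UpIrr (Set.univ : Set P))
        rw [← hI] at this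
        omega
      have hIinv : ∀ (g : P ≃o P), ∀ x ∈ I, g x ∈ I := by
        rintro g x (hx | hx)
        · exact Or.inl (downIrr_inv g x hx)
        · exact Or.inr (upIrr_inv g x hx)
      have h1 : Nat.card (P ≃o P) ≤ I.ncard.factorial * n ^ B.ncard :=
        card_aut_le_base I B hIinv hB
      have h2 : 2 ^ k * Nat.card (P ≃o P) ≤ n ^ (2 * k + B.ncard) := by
        calc 2 ^ k * Nat.card (P ≃o P)
            ≤ 2 ^ (2 * k) * ((2 * k).factorial * n ^ B.ncard) :=
              Nat.mul_le_mul (Nat.pow_le_pow_right (by norm_num) (by omega))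
                (h1.trans (Nat.mul_le_mul_right _ (Nat.factorial_le hIcard)))
          _ = (2 ^ (2 * k) * (2 * k).factorial) * n ^ B.ncard := by ring
          _ ≤ (2 * k + 1) ^ (2 * k) * n ^ B.ncard :=
              Nat.mul_le_mul_right _ (two_pow_mul_factorial_le _)
          _ ≤ n ^ (2 * k) * n ^ B.ncard :=
              Nat.mul_le_mul_right _ (Nat.pow_le_pow_left hkn _)
          _ = n ^ (2 * k + B.ncard) := (pow_add _ _ _).symm
      have h3 : (n : ℝ) ^ (2 * k + B.ncard) ≤ (2 : ℝ) ^ ((n : ℝ) / 2) := by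
        rw [← Real.rpow_natCast]
        have e1 : (n : ℝ) ^ (((2 * k + B.ncard : ℕ)) : ℝ)
            = 2 ^ ((2 * (k : ℝ) + B.ncard) * Real.logb 2 n) := by
          rw [mul_comm (2 * (k : ℝ) + B.ncard), Real.rpow_mul (by norm_num),
            Real.rpow_logb (by norm_num) (by norm_num) (by linarith)]
          push_cast
          rfl
        rw [e1]
        apply Real.rpow_le_rpow_of_exponent_le (by norm_num)
        refine le_trans ?_ hkc
        apply mul_le_mul_of_nonneg_right _ (by linarith)
        linarith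
      have h5 : ((2 ^ k * Nat.card (P ≃o P) : ℕ) : ℝ) ≤ Nat.card (P →o P) := by
        calc ((2 ^ k * Nat.card (P ≃o P) : ℕ) : ℝ) ≤ ((n ^ (2 * k + B.ncard) : ℕ) : ℝ) := by
              exact_mod_cast h2
          _ = (n : ℝ) ^ (2 * k + B.ncard) := by push_cast; rfl
          _ ≤ (2 : ℝ) ^ ((n : ℝ) / 2) := h3
          _ ≤ _ := half_lower hc hn2
      exact_mod_cast h5
    refine (ratio_le_of_nat k hmain).trans ?_
    apply Real.rpow_le_rpow_of_exponent_le (by norm_num)
    linarith

theorem ratio_height_two [Nonempty P] (h : Dismantlable P) (h3 : ∀ x y z : P, x < y → ¬ y < z) :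
    (Nat.card (P ≃o P) : ℝ) / (Nat.card (P →o P) : ℝ) ≤
      2 ^ (1 - (Nat.card P : ℝ) / (4 * Real.logb 2 (Nat.card P))) := by
  refine (ratio_sparse h.connected).trans ?_
  apply Real.rpow_le_rpow_of_exponent_le (by norm_num)
  have h1 := h.edges h3
  have h2 : 1 ≤ Nat.card P := Nat.card_pos
  have h4 : ((hasse P).edgeSet.ncard : ℝ) ≤ (Nat.card P : ℝ) - 1 := by
    rw [← Nat.cast_one, ← Nat.cast_sub h2]
    exact_mod_cast h1
  linarith

end Sparse

end Pool.Agent.H82.AutConj
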