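import Pool.Agent.H82.AutConj.EndLower

set_option autoImplicit false

namespace Pool.Agent.H82.AutConj

open Function OrderDual

/-- The elements of `P` that do not have exactly one lower cover and are not the least upper bound
of the set of elements strictly below them. -/
def NonSup (P : Type*) [PartialOrder P] : Set P :=
  {x | x ∉ DownIrr (Set.univ : Set P) ∧ ¬ IsLUB {y | y < x} x}

section Sup
variable {P : Type*} [PartialOrder P] [Finite P]

theorem isLUB_iso (g : P ≃o P) (x : P) (h : IsLUB {y | y < x} x) : IsLUB {y | y < g x} (g x) := by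
  constructor
  · intro y hy
    exact le_of_lt hy
  · intro b hb
    have : x ≤ g.symm b := h.2 (by
      intro y hy
      rw [g.le_symm_apply]
      exact hb (g.strictMono hy))
    rwa [g.le_symm_apply] at this

theorem nonSup_inv (g : P ≃o P) (x : P) (hx : x ∈ NonSup P) : g x ∈ NonSup P := by
  refine ⟨fun h => hx.1 ?_, fun h => hx.2 ?_⟩
  · have := downIrr_inv g.symm _ h
    rwa [g.symm_apply_apply] at this
  · have := isLUB_iso g.symm _ h
    rwa [g.symm_apply_apply] at this

theorem faithful (g : P ≃o P) (h1 : ∀ x ∈ DownIrr (Set.univ : Set P), g x = x)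
    (h2 : ∀ x ∈ NonSup P, g x = x) : ∀ x, g x = x := by
  intro x
  induction x using WellFoundedLT.induction with
  | ind x ih =>
    by_cases hJ : x ∈ DownIrr (Set.univ : Set P)
    · exact h1 x hJ
    · by_cases hL : IsLUB {y | y < x} x
      · have hL' := isLUB_iso g x hL
        have hset : {y | y < g x} = {y | y < x} := by
          ext y
          simp only [Set.mem_ofPred_eq]
          constructor
          · intro hy
            have h3 : g.symm y < x := by rw [g.symm_apply_lt]; exact hy
            have h4 := ih _ h3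
            rw [g.apply_symm_apply] at h4
            rw [h4]
            exact h3
          · intro hy
            rw [← ih y hy]
            exact g.strictMono hy
        rw [hset] at hL'
        exact hL'.unique hL
      · exact h2 x ⟨hJ, hL⟩

theorem not_downIrr_of_isMin {x : P} (h : IsMin x) : x ∉ DownIrr (Set.univ : Set P) := by
  rintro ⟨_, y, ⟨_, hy, _⟩, _⟩
  exact absurd (h hy.le) (not_le_of_gt hy)

theorem card_min_le : ({x : P | IsMin x} : Set P).ncard ≤ (NonSup P).ncard + 1 := by
  by_cases hb : ∃ b : P, ∀ x, b ≤ x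
  · obtain ⟨b, hb⟩ := hb
    have : ({x : P | IsMin x} : Set P) ⊆ {b} := by
      intro x hx
      exact le_antisymm (hx (hb x)) (hb x)
    have := Set.ncard_le_ncard this
    rw [Set.ncard_singleton] at this
    omega
  · have : ({x : P | IsMin x} : Set P) ⊆ NonSup P := by
      intro x hx
      refine ⟨not_downIrr_of_isMin hx, fun hL => hb ⟨x, fun z => hL.2 ?_⟩⟩
      intro y hy
      exact absurd (hx (le_of_lt hy)) (not_le_of_gt hy)
    have := Set.ncard_le_ncard this
    omega

theorem card_nonmin [Nonempty P] :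
    (Nat.card P : ℝ) - 1 - (NonSup P).ncard ≤ (({x : P | ¬ IsMin x} : Set P).ncard : ℝ) := by
  have h1 : ({x : P | IsMin x} : Set P).ncard + ({x : P | ¬ IsMin x} : Set P).ncard
      = Nat.card P := by
    rw [← Set.ncard_add_ncard_compl ({x : P | IsMin x} : Set P)]
    rfl
  have h2 := card_min_le (P := P)
  have h3 : Nat.card P ≤ ({x : P | ¬ IsMin x} : Set P).ncard + ((NonSup P).ncard + 1) := by omega
  have h4 : (Nat.card P : ℝ) ≤ (({x : P | ¬ IsMin x} : Set P).ncard : ℝ)
      + ((NonSup P).ncard + 1) := by exact_mod_cast h3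
  linarith

theorem ratio_le_one : (Nat.card (P ≃o P) : ℝ) / (Nat.card (P →o P) : ℝ) ≤ 1 := by
  rw [ratio_eq]
  calc (2 : ℝ) ^ (-(ratLog P)) ≤ 2 ^ (0 : ℝ) :=
        Real.rpow_le_rpow_of_exponent_le (by norm_num) (neg_nonpos.2 ratLog_nonneg)
    _ = 1 := by simp

/-- from an integer inequality to the ratio -/
theorem ratio_le_of_nat (k : ℕ) (h : 2 ^ k * Nat.card (P ≃o P) ≤ Nat.card (P →o P)) :
    (Nat.card (P ≃o P) : ℝ) / (Nat.card (P →o P) : ℝ) ≤ 2 ^ (-(k : ℝ)) := by
  have hE : (0 : ℝ) < Nat.card (P →o P) := by exact_mod_cast card_end_pos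
  rw [Real.rpow_neg (by norm_num), Real.rpow_natCast, div_le_iff₀ hE]
  have h' : (2 : ℝ) ^ k * Nat.card (P ≃o P) ≤ Nat.card (P →o P) := by exact_mod_cast h
  rw [inv_mul_eq_div, le_div_iff₀ (by positivity)]
  linarith

theorem ratio_sup [Nonempty P] :
    (Nat.card (P ≃o P) : ℝ) / (Nat.card (P →o P) : ℝ) ≤
      2 ^ (1 + ((NonSup P).ncard : ℝ) -
        ((Nat.card P : ℝ) - 1 - (NonSup P).ncard) / Real.logb 2 (Nat.card P)) := by
  set n := Nat.card P with hn
  set d := (NonSup P).ncard with hd
  have hnpos : 1 ≤ n := Nat.card_pos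
  rcases le_or_gt (((n : ℝ) - 1 - d) / Real.logb 2 n) (d + 1) with hc | hc
  · refine ratio_le_one.trans ?_
    exact Real.one_le_rpow (by norm_num) (by linarith)
  · -- main case
    have hn2 : 2 ≤ n := by
      by_contra h
      have : n = 1 := by omega
      rw [this] at hc
      simp at hc
      have : (0 : ℝ) ≤ d := Nat.cast_nonneg _
      linarith
    have hnR : (2 : ℝ) ≤ n := by exact_mod_cast hn2
    have hlog : 1 ≤ Real.logb 2 (n : ℝ) := by
      rw [Real.le_logb_iff_rpow_le (by norm_num) (by linarith)]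
      simpa using hnR
    have hdn : d ≤ n := by
      simpa [Set.ncard_univ] using Set.ncard_le_ncard (Set.subset_univ (NonSup P))
    set q : ℝ := ((n : ℝ) - 1 - d) / Real.logb 2 n - d with hq
    have hq0 : 0 ≤ q := by linarith
    set k := ⌊q⌋₊ with hk
    have hkq : (k : ℝ) ≤ q := Nat.floor_le hq0
    have hkq' : q < k + 1 := Nat.lt_floor_add_one q
    have hkd : ((k : ℝ) + d) * Real.logb 2 n ≤ (n : ℝ) - 1 - d := by
      have h1 : (k : ℝ) + d ≤ ((n : ℝ) - 1 - d) / Real.logb 2 n := by linarith
      rwa [le_div_iff₀ (by linarith)] at h1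
    have hkn : k + 1 ≤ n := by
      have h1 : (k : ℝ) + d ≤ (n : ℝ) - 1 - d := by
        have h0 : (0 : ℝ) ≤ (k : ℝ) + d := by positivity
        nlinarith
      have h2 : (k : ℝ) + 1 ≤ n := by
        have : (0 : ℝ) ≤ d := Nat.cast_nonneg _
        linarith
      exact_mod_cast h2
    have hmain : 2 ^ k * Nat.card (P ≃o P) ≤ Nat.card (P →o P) := by
      rcases le_or_gt k (DownIrr (Set.univ : Set P)).ncard with hJ | hJ
      · calc 2 ^ k * Nat.card (P ≃o P)
            ≤ 2 ^ (DownIrr (Set.univ : Set P)).ncard * Nat.card (P ≃o P) :=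
              Nat.mul_le_mul_right _ (Nat.pow_le_pow_right (by norm_num) hJ)
          _ ≤ _ := one_round_down
      · have h1 : Nat.card (P ≃o P) ≤ (DownIrr (Set.univ : Set P)).ncard.factorial *
            (NonSup P).ncard.factorial :=
          card_aut_le_base2 _ _ downIrr_inv nonSup_inv faithful
        have h2 : 2 ^ k * Nat.card (P ≃o P) ≤ n ^ (k + d) := by
          calc 2 ^ k * Nat.card (P ≃o P)
              ≤ 2 ^ k * (k.factorial * d.factorial) :=
                Nat.mul_le_mul_left _ (h1.trans (Nat.mul_le_mul_right _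
                  (Nat.factorial_le hJ.le)))
            _ = (2 ^ k * k.factorial) * d.factorial := by ring
            _ ≤ (k + 1) ^ k * d ^ d :=
                Nat.mul_le_mul (two_pow_mul_factorial_le k) (Nat.factorial_le_pow d)
            _ ≤ n ^ k * n ^ d :=
                Nat.mul_le_mul (Nat.pow_le_pow_left hkn _) (Nat.pow_le_pow_left hdn _)
            _ = n ^ (k + d) := (pow_add _ _ _).symm
        have h3 : ((n : ℝ)) ^ (k + d) ≤ (2 : ℝ) ^ (({x : P | ¬ IsMin x} : Set P).ncard) := by
          rw [← Real.rpow_natCast, ← Real.rpow_natCast]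
          have e1 : (n : ℝ) ^ (((k + d : ℕ)) : ℝ) = 2 ^ (((k : ℝ) + d) * Real.logb 2 n) := by
            rw [mul_comm, Real.rpow_mul (by norm_num), Real.rpow_logb (by norm_num) (by norm_num)
              (by linarith)]
            push_cast
            rfl
          rw [e1]
          apply Real.rpow_le_rpow_of_exponent_le (by norm_num)
          exact hkd.trans card_nonmin
        have h4 : n ^ (k + d) ≤ 2 ^ (({x : P | ¬ IsMin x} : Set P).ncard) := by
          exact_mod_cast h3
        exact h2.trans (h4.trans end_lower)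
    refine (ratio_le_of_nat k hmain).trans ?_
    apply Real.rpow_le_rpow_of_exponent_le (by norm_num)
    linarith

theorem nonSup_meet (h : ∀ x y : P, ∃ z, IsGLB {x, y} z) : NonSup P = ∅ := by
  rw [Set.eq_empty_iff_forall_notMem]
  rintro x ⟨hJ, hL⟩
  apply hL
  refine ⟨fun y hy => le_of_lt hy, fun b hb => ?_⟩
  obtain ⟨m, hm⟩ := h b x
  have hmb : m ≤ b := hm.1 (by simp)
  have hmx : m ≤ x := hm.1 (by simp)
  rcases eq_or_lt_of_le hmx with hmx' | hmx'
  · exact hmx' ▸ hmb
  · exfalso
    apply hJ
    have hgreatest : ∀ y, y < x → y ≤ m := by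
      intro y hy
      apply hm.2
      intro w hw
      rcases hw with hw | hw
      · rw [hw]; exact hb hy
      · rw [Set.mem_singleton_iff.1 hw]; exact hy.le
    refine ⟨trivial, m, ⟨trivial, hmx', fun z _ hz => ?_⟩, ?_⟩
    · exact absurd (hgreatest z hz.2) (not_le_of_gt hz.1)
    · rintro y ⟨_, hy2, hy3⟩
      rcases eq_or_lt_of_le (hgreatest y hy2) with h' | h'
      · exact h'
      · exact absurd ⟨h', hmx'⟩ (hy3 m trivial)

theorem ratio_meet [Nonempty P] (h : ∀ x y : P, ∃ z, IsGLB {x, y} z) :
    (Nat.card (P ≃o P) : ℝ) / (Nat.card (P →o P) : ℝ) ≤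
      2 ^ (1 - ((Nat.card P : ℝ) - 1) / Real.logb 2 (Nat.card P)) := by
  have h1 := ratio_sup (P := P)
  rw [nonSup_meet h] at h1
  simpa using h1

theorem ratio_join [Nonempty P] (h : ∀ x y : P, ∃ z, IsLUB {x, y} z) :
    (Nat.card (P ≃o P) : ℝ) / (Nat.card (P →o P) : ℝ) ≤
      2 ^ (1 - ((Nat.card P : ℝ) - 1) / Real.logb 2 (Nat.card P)) := by
  have h1 := ratio_meet (P := Pᵒᵈ) h
  rw [card_aut_dual, card_end_dual] at h1
  exact h1

end Sup

end Pool.Agent.H82.AutConj
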