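import Pool.Agent.H82.AutConj.Tower2

set_option autoImplicit false

namespace Pool.Agent.H82.AutConj

open Function OrderDual

section Top
variable {P : Type*} [PartialOrder P] [Finite P]

/-- layers of a poset with greatest element `t`: `t` and the points of coheight `> i` -/
def Lay (t : P) (i : ℕ) : Set P := {x | x = t ∨ (i : ℕ∞) < Order.coheight x}

theorem peeling_top (t : P) (ht : ∀ x, x ≤ t) (r : ℕ) : Peeling P r (Lay t) where
  zero := by
    ext x
    simp only [Lay, Set.mem_ofPred_eq, Set.mem_univ, iff_true]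
    rcases eq_or_lt_of_le (ht x) with h | h
    · exact Or.inl h
    · right
      simp only [Nat.cast_zero, Order.coheight_pos]
      exact fun hm => absurd (hm h.le) (not_le_of_gt h)
  sub := by
    rintro i _ x (hx | hx)
    · exact Or.inl hx
    · refine Or.inr (lt_of_le_of_lt ?_ hx)
      exact_mod_cast Nat.le_succ i
  inv := by
    rintro i _ g x (hx | hx)
    · left
      subst hx
      apply le_antisymm (ht _)
      rw [← g.symm_apply_le]
      exact ht _
    · right
      rwa [Order.coheight_orderIso]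
  irr := by
    intro i _
    left
    rintro x ⟨hx1, hx2⟩
    have hxt : x ≠ t := fun h => hx2 (Or.inl h)
    have hlt : x < t := lt_of_le_of_ne (ht x) hxt
    have hco : Order.coheight x ≤ (i + 1 : ℕ) := by
      by_contra h
      exact hx2 (Or.inr (not_le.1 h))
    have hup : ∀ y ∈ Lay t i, x < y → y = t := by
      rintro y (hy | hy) hxy
      · exact hy
      · exfalso
        have h1 : Order.coheight x < ⊤ := lt_of_le_of_lt hco (WithTop.coe_lt_top _)
        have h2 := Order.coheight_strictAnti hxy (lt_of_le_of_lt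
          (Order.coheight_anti hxy.le) h1)
        have h3 : (i : ℕ∞) + 1 ≤ Order.coheight y := Order.add_one_le_of_lt hy
        have h4 := (h3.trans_lt h2).trans_le hco
        exact absurd h4 (by push_cast; exact lt_irrefl _)
    refine ⟨hx1, t, ⟨Or.inl rfl, hlt, ?_⟩, ?_⟩
    · rintro z hz ⟨hz1, hz2⟩
      exact hz2.ne (hup z hz hz1)
    · rintro y ⟨hy1, hy2, _⟩
      exact hup y hy1 hy2

theorem lay_last (t : P) (ht : ∀ x, x ≤ t) (r : ℕ)
    (hc : ∀ c : Set P, IsChain (· ≤ ·) c → c.ncard ≤ r + 1) : Lay t r = {t} := by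
  ext x
  simp only [Lay, Set.mem_ofPred_eq, Set.mem_singleton_iff, or_iff_left_iff_imp]
  intro h
  exfalso
  refine absurd h (not_lt_of_ge ?_)
  apply Order.coheight_le
  intro p _
  have h1 := hc (Set.range p) (by
    rintro _ ⟨i, rfl⟩ _ ⟨j, rfl⟩ _
    rcases le_total i j with h | h
    · exact Or.inl (p.strictMono.monotone h)
    · exact Or.inr (p.strictMono.monotone h))
  rw [← Set.image_univ, Set.ncard_image_of_injective _ p.strictMono.injective,
    Set.ncard_univ, Nat.card_eq_fintype_card, Fintype.card_fin] at h1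
  exact_mod_cast Nat.le_of_succ_le_succ h1

theorem ratio_top (t : P) (ht : ∀ x, x ≤ t) (r : ℕ)
    (hc : ∀ c : Set P, IsChain (· ≤ ·) c → c.ncard ≤ r + 1) :
    (Nat.card (P ≃o P) : ℝ) / (Nat.card (P →o P) : ℝ) ≤
      2 ^ (-(((Nat.card P : ℝ) - 1) /
        ∑ j ∈ Finset.range r, (1 + Real.logb 2 (Nat.card P)) ^ j)) := by
  have h := (peeling_top t ht r).ratio
  rw [lay_last t ht r hc, Set.ncard_compl, Set.ncard_singleton] at h
  have hpos : 1 ≤ Nat.card P := by
    have : Nonempty P := ⟨t⟩
    exact Nat.card_pos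
  rwa [Nat.cast_sub hpos, Nat.cast_one] at h

theorem ratio_bot (t : P) (ht : ∀ x, t ≤ x) (r : ℕ)
    (hc : ∀ c : Set P, IsChain (· ≤ ·) c → c.ncard ≤ r + 1) :
    (Nat.card (P ≃o P) : ℝ) / (Nat.card (P →o P) : ℝ) ≤
      2 ^ (-(((Nat.card P : ℝ) - 1) /
        ∑ j ∈ Finset.range r, (1 + Real.logb 2 (Nat.card P)) ^ j)) := by
  have h := ratio_top (P := Pᵒᵈ) t ht r (fun c hcc => hc c (by
    intro a ha b hb hab
    exact (hcc ha hb hab).symm))
  rw [card_aut_dual, card_end_dual] at h
  exact h

/-- the one-round inequality -/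
theorem one_round_up :
    2 ^ (UpIrr (Set.univ : Set P)).ncard * Nat.card (P ≃o P) ≤ Nat.card (P →o P) := by
  have h := round_up (P := P) Set.univ (UpIrr Set.univ)ᶜ OrderHom.id (Set.subset_univ _)
    (by rw [← Set.compl_eq_univ_sdiff, compl_compl]) (fun _ _ _ => trivial)
    (fun _ => trivial) (fun _ _ => rfl)
  rw [← Set.compl_eq_univ_sdiff, compl_compl] at h
  simpa using h

theorem one_round_down :
    2 ^ (DownIrr (Set.univ : Set P)).ncard * Nat.card (P ≃o P) ≤ Nat.card (P →o P) := by
  have h := round_down (P := P) Set.univ (DownIrr Set.univ)ᶜ OrderHom.id (Set.subset_univ _)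
    (by rw [← Set.compl_eq_univ_sdiff, compl_compl]) (fun _ _ _ => trivial)
    (fun _ => trivial) (fun _ _ => rfl)
  rw [← Set.compl_eq_univ_sdiff, compl_compl] at h
  simpa using h

end Top

end Pool.Agent.H82.AutConj
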