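import Pool.Agent.H82.AutConj.Key

set_option autoImplicit false

namespace Pool.Agent.H82.AutConj

open Function

/-- Points of `S` with exactly one upper cover in the subposet `S`. -/
def UpIrr {P : Type*} [PartialOrder P] (S : Set P) : Set P :=
  {x | x ∈ S ∧ ∃! y, y ∈ S ∧ x < y ∧ ∀ z ∈ S, ¬ (x < z ∧ z < y)}

/-- Points of `S` with exactly one lower cover in the subposet `S`. -/
def DownIrr {P : Type*} [PartialOrder P] (S : Set P) : Set P :=
  {x | x ∈ S ∧ ∃! y, y ∈ S ∧ y < x ∧ ∀ z ∈ S, ¬ (y < z ∧ z < x)}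

section Round
variable {P : Type*} [PartialOrder P] [Finite P]

theorem least_of_upIrr {S : Set P} {x : P} (hx : x ∈ UpIrr S) :
    ∃ y, y ∈ S ∧ x < y ∧ ∀ z ∈ S, x < z → y ≤ z := by
  obtain ⟨_, y, ⟨hyS, hxy, _⟩, huniq⟩ := hx
  refine ⟨y, hyS, hxy, fun z hz hxz => ?_⟩
  have hfin : ({w | w ∈ S ∧ x < w ∧ w ≤ z} : Set P).Finite := Set.toFinite _
  have hne : ({w | w ∈ S ∧ x < w ∧ w ≤ z} : Set P).Nonempty := ⟨z, hz, hxz, le_rfl⟩
  obtain ⟨w, hw⟩ := hfin.exists_minimal hne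
  have hwy : w = y := by
    refine huniq w ⟨hw.prop.1, hw.prop.2.1, fun v hv hv2 => ?_⟩
    exact absurd (hw.le_of_le ⟨hv, hv2.1, hv2.2.le.trans hw.prop.2.2⟩ hv2.2.le)
      (not_le_of_gt hv2.2)
  exact hwy ▸ hw.prop.2.2

/-- automorphisms fixing `T` pointwise -/
def Fx (T : Set P) : Type _ := {g : P ≃o P // ∀ x ∈ T, g x = x}

instance (T : Set P) : Finite (Fx T) := by unfold Fx; infer_instance

theorem card_Fx_le (S : Set P) : Nat.card (Fx S) ≤ (Sᶜ.ncard).factorial := by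
  classical
  have hperm : Nat.card (Equiv.Perm (Sᶜ : Set P)) = (Sᶜ.ncard).factorial := by
    have := Fintype.ofFinite (Sᶜ : Set P)
    rw [Nat.card_eq_fintype_card, Fintype.card_perm, ← Nat.card_eq_fintype_card]
    rfl
  rw [← hperm]
  have hiff : ∀ (g : Fx S) (x : P), g.1 x ∈ Sᶜ ↔ x ∈ Sᶜ := by
    intro g x
    simp only [Set.mem_compl_iff, not_iff_not]
    constructor
    · intro h
      have := g.2 _ h
      exact g.1.injective this ▸ h
    · intro h
      rw [g.2 x h]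
      exact h
  refine Nat.card_le_card_of_injective
    (fun g : Fx S => Equiv.Perm.subtypePerm (g.1.toEquiv : Equiv.Perm P) (fun x => hiff g x)) ?_
  intro g g' h
  apply Subtype.ext
  ext x
  by_cases hx : x ∈ S
  · rw [g.2 x hx, g'.2 x hx]
  · have h1 := congrArg (fun σ : Equiv.Perm (Sᶜ : Set P) => (σ ⟨x, hx⟩).1) h
    exact h1

variable (S T : Set P) (ρ : P →o P)

theorem card_Fx_step (hTS : T ⊆ S) (hinv : ∀ (g : P ≃o P), ∀ x ∈ S, g x ∈ S)
    (L : Finset S) (hL : ∀ x : S, x ∈ L ↔ x.1 ∉ T) :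
    Nat.card (Fx T) ≤ Nat.card (KL L) * Nat.card (Fx S) := by
  classical
  let res : Fx T → KL L := fun g => ⟨{
      toFun := fun x => ⟨g.1 x.1, hinv g.1 x.1 x.2⟩
      invFun := fun x => ⟨g.1.symm x.1, hinv g.1.symm x.1 x.2⟩
      left_inv := fun x => by simp
      right_inv := fun x => by simp
      map_rel_iff' := by
        intro a b
        show g.1 a.1 ≤ g.1 b.1 ↔ a.1 ≤ b.1
        exact g.1.le_iff_le }, fun x hx => by
        have hxT : x.1 ∈ T := by
          by_contra h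
          exact hx ((hL x).2 h)
        apply Subtype.ext
        exact g.2 x.1 hxT⟩
  have hres : ∀ (g : Fx T) (x : S), ((res g).1 x).1 = g.1 x.1 := fun g x => rfl
  refine card_le_of_fibers res ?_
  intro k
  by_cases hk : ∃ g, res g = k
  · obtain ⟨g0, hg0⟩ := hk
    refine ⟨fun g => ⟨g.1.1.trans g0.1.symm, ?_⟩, ?_⟩
    · intro x hx
      have h1 := hres g.1 ⟨x, hx⟩
      have h2 := hres g0 ⟨x, hx⟩
      rw [g.2] at h1
      rw [hg0] at h2
      have h3 : g.1.1 x = g0.1 x := h1.symm.trans h2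
      simp [h3]
    · intro g g' hgg
      apply Subtype.ext
      apply Subtype.ext
      have h1 := congrArg Subtype.val hgg
      ext x
      have h2 := congrArg (fun f : P ≃o P => f x) h1
      simpa using h2
  · exact ⟨fun g => absurd ⟨g.1, g.2⟩ hk, fun g => absurd ⟨g.1, g.2⟩ hk⟩

theorem card_aut_step (hTS : T ⊆ S) (hρS : ∀ x, ρ x ∈ S) (hρ : ∀ x ∈ S, ρ x = x)
    (L : Finset S) (hL : ∀ x : S, x ∈ L ↔ x.1 ∉ T) :
    Nat.card (P ≃o P) * Nat.card (EL L) ≤ Nat.card (P →o P) * Nat.card (Fx T) := by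
  classical
  rw [← Nat.card_prod]
  let φ : (P ≃o P) × EL L → (P →o P) := fun q =>
    ⟨fun x => q.1 (q.2.1 ⟨ρ x, hρS x⟩).1, fun a b hab =>
      q.1.monotone (q.2.1.monotone (show (⟨ρ a, hρS a⟩ : S) ≤ ⟨ρ b, hρS b⟩ from ρ.monotone hab))⟩
  have hφ : ∀ (q : (P ≃o P) × EL L) (x : S), φ q x.1 = q.1 (q.2.1 x).1 := by
    intro q x
    show q.1 (q.2.1 ⟨ρ x.1, hρS x.1⟩).1 = _
    have : (⟨ρ x.1, hρS x.1⟩ : S) = x := Subtype.ext (hρ x.1 x.2)
    rw [this]
  have hφT : ∀ (q : (P ≃o P) × EL L) (x : P), x ∈ T → φ q x = q.1 x := by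
    intro q x hx
    have h1 := hφ q ⟨x, hTS hx⟩
    have h2 : q.2.1 ⟨x, hTS hx⟩ = ⟨x, hTS hx⟩ := q.2.2 _ (fun h => (hL _).1 h hx)
    rw [h2] at h1
    exact h1
  refine card_le_of_fibers φ ?_
  intro f
  by_cases hf : ∃ q, φ q = f
  · obtain ⟨q0, hq0⟩ := hf
    refine ⟨fun q => ⟨q.1.1.trans q0.1.symm, ?_⟩, ?_⟩
    · intro x hx
      have h1 := hφT q.1 x hx
      have h2 := hφT q0 x hx
      rw [q.2] at h1
      rw [hq0] at h2
      have h3 : q.1.1 x = q0.1 x := h1.symm.trans h2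
      simp [h3]
    · intro q q' hqq
      have h1 := congrArg Subtype.val hqq
      have h2 : q.1.1 = q'.1.1 := by
        ext x
        have h2 := congrArg (fun f : P ≃o P => f x) h1
        simpa using h2
      apply Subtype.ext
      apply Prod.ext h2
      apply Subtype.ext
      apply OrderHom.ext
      funext x
      have h3 := hφ q.1 x
      have h4 := hφ q'.1 x
      rw [q.2] at h3
      rw [q'.2] at h4
      rw [h3, h2] at h4
      exact Subtype.ext (q'.1.1.injective h4)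
  · exact ⟨fun g => absurd ⟨g.1, g.2⟩ hf, fun g => absurd ⟨g.1, g.2⟩ hf⟩

/-- one round, removing points with a least element of `S` above them -/
theorem round_up (hTS : T ⊆ S) (hST : S \ T ⊆ UpIrr S)
    (hinv : ∀ (g : P ≃o P), ∀ x ∈ S, g x ∈ S)
    (hρS : ∀ x, ρ x ∈ S) (hρ : ∀ x ∈ S, ρ x = x) :
    2 ^ (S \ T).ncard * Nat.card (P ≃o P) ≤ Nat.card (P →o P) * (Sᶜ.ncard).factorial := by
  classical
  have := Fintype.ofFinite S
  let L : Finset S := Finset.univ.filter (fun x => x.1 ∉ T)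
  have hL : ∀ x : S, x ∈ L ↔ x.1 ∉ T := by intro x; simp [L]
  have hLcard : L.card = (S \ T).ncard := by
    rw [← Set.ncard_coe_finset]
    have himg : (S \ T) = Subtype.val '' (L : Set S) := by
      ext x
      simp only [Set.mem_sdiff, Set.mem_image, Finset.mem_coe, hL, Subtype.exists,
        exists_and_right, exists_eq_right]
      constructor
      · rintro ⟨h1, h2⟩
        exact ⟨h1, h2⟩
      · rintro ⟨h1, h2⟩
        exact ⟨h1, h2⟩
    rw [himg, Set.ncard_image_of_injective _ Subtype.val_injective]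
  have hkey := key L (by
    intro x hx
    have hx' : x.1 ∈ UpIrr S := hST ⟨x.2, (hL x).1 hx⟩
    obtain ⟨y, hyS, hxy, hmin⟩ := least_of_upIrr hx'
    exact ⟨⟨y, hyS⟩, hxy, fun z hz => hmin z.1 z.2 hz⟩)
  have h1 := card_aut_step S T ρ hTS hρS hρ L hL
  have h2 := card_Fx_step S T hTS hinv L hL
  have h3 := card_Fx_le S
  have hpos : 0 < Nat.card (KL L) := by
    have : Nonempty (KL L) := ⟨KL.one L⟩
    exact Nat.card_pos
  rw [← hLcard]
  refine Nat.le_of_mul_le_mul_right ?_ hpos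
  calc 2 ^ L.card * Nat.card (P ≃o P) * Nat.card (KL L)
      = Nat.card (P ≃o P) * (2 ^ L.card * Nat.card (KL L)) := by ring
    _ ≤ Nat.card (P ≃o P) * Nat.card (EL L) := Nat.mul_le_mul_left _ hkey
    _ ≤ Nat.card (P →o P) * Nat.card (Fx T) := h1
    _ ≤ Nat.card (P →o P) * (Nat.card (KL L) * (Sᶜ.ncard).factorial) :=
        Nat.mul_le_mul_left _ (h2.trans (Nat.mul_le_mul_left _ h3))
    _ = Nat.card (P →o P) * (Sᶜ.ncard).factorial * Nat.card (KL L) := by ring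

theorem retr_up (hTS : T ⊆ S) (hST : S \ T ⊆ UpIrr S)
    (hρS : ∀ x, ρ x ∈ S) (hρ : ∀ x ∈ S, ρ x = x) :
    ∃ ρ' : P →o P, (∀ x, ρ' x ∈ T) ∧ ∀ x ∈ T, ρ' x = x := by
  have hex : ∀ x, x ∈ S → ∃ z, z ∈ T ∧ x ≤ z ∧ ∀ w ∈ T, x ≤ w → z ≤ w := by
    intro x
    induction x using WellFoundedGT.induction with
    | ind x ih =>
      intro hxS
      by_cases hxT : x ∈ T
      · exact ⟨x, hxT, le_rfl, fun w _ h => h⟩
      · obtain ⟨y, hyS, hxy, hmin⟩ := least_of_upIrr (hST ⟨hxS, hxT⟩)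
        obtain ⟨z, hzT, hyz, hz⟩ := ih y hxy hyS
        refine ⟨z, hzT, hxy.le.trans hyz, fun w hw hxw => hz w hw ?_⟩
        refine hmin w (hTS hw) (lt_of_le_of_ne hxw ?_)
        rintro rfl
        exact hxT hw
  choose! m hmT hle hmin using hex
  refine ⟨⟨fun x => m (ρ x), fun a b hab => ?_⟩, fun x => hmT _ (hρS x), fun x hx => ?_⟩
  · exact hmin _ (hρS a) _ (hmT _ (hρS b)) ((ρ.monotone hab).trans (hle _ (hρS b)))
  · show m (ρ x) = x
    rw [hρ x (hTS hx)]
    exact le_antisymm (hmin x (hTS hx) x hx le_rfl) (hle x (hTS hx))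

end Round

end Pool.Agent.H82.AutConj
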