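import Pool.Agent.H82.AutConj.Tower

set_option autoImplicit false

namespace Pool.Agent.H82.AutConj

open Function OrderDual

section Dual
variable {P : Type*} [PartialOrder P] [Finite P]

theorem card_aut_dual : Nat.card (Pᵒᵈ ≃o Pᵒᵈ) = Nat.card (P ≃o P) := by
  refine Nat.card_congr ⟨fun g => OrderIso.dual (α := Pᵒᵈ) (β := Pᵒᵈ) g, fun g => OrderIso.dual g, ?_, ?_⟩
  · intro g; rfl
  · intro g; rfl

theorem card_end_dual : Nat.card (Pᵒᵈ →o Pᵒᵈ) = Nat.card (P →o P) :=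
  (Nat.card_congr OrderHom.dual).symm

theorem downIrr_dual (S : Set P) (x : P) (h : x ∈ DownIrr S) :
    x ∈ (UpIrr (P := Pᵒᵈ) S : Set Pᵒᵈ) := by
  obtain ⟨hx, y, ⟨hy1, hy2, hy3⟩, hu⟩ := h
  refine ⟨hx, y, ⟨hy1, hy2, fun z hz hz2 => hy3 z hz ⟨hz2.2, hz2.1⟩⟩, ?_⟩
  rintro w ⟨hw1, hw2, hw3⟩
  exact hu w ⟨hw1, hw2, fun z hz hz2 => hw3 z hz ⟨hz2.2, hz2.1⟩⟩

variable (S T : Set P) (ρ : P →o P)

theorem round_down (hTS : T ⊆ S) (hST : S \ T ⊆ DownIrr S)
    (hinv : ∀ (g : P ≃o P), ∀ x ∈ S, g x ∈ S)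
    (hρS : ∀ x, ρ x ∈ S) (hρ : ∀ x ∈ S, ρ x = x) :
    2 ^ (S \ T).ncard * Nat.card (P ≃o P) ≤ Nat.card (P →o P) * (Sᶜ.ncard).factorial := by
  have h := round_up (P := Pᵒᵈ) S T (OrderHom.dual ρ) hTS
    (fun x hx => downIrr_dual S x (hST hx)) (fun g x hx => hinv (OrderIso.dual g) x hx) hρS hρ
  rw [card_aut_dual, card_end_dual] at h
  exact h

theorem retr_down (hTS : T ⊆ S) (hST : S \ T ⊆ DownIrr S)
    (hρS : ∀ x, ρ x ∈ S) (hρ : ∀ x ∈ S, ρ x = x) :
    ∃ ρ' : P →o P, (∀ x, ρ' x ∈ T) ∧ ∀ x ∈ T, ρ' x = x := by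
  obtain ⟨ρ', h1, h2⟩ := retr_up (P := Pᵒᵈ) S T (OrderHom.dual ρ) hTS
    (fun x hx => downIrr_dual S x (hST hx)) hρS hρ
  exact ⟨OrderHom.dual.symm ρ', h1, h2⟩

end Dual

/-- A peeling of `P` in `r` rounds: `S 0 = P ⊇ S 1 ⊇ ... ⊇ S r`, every `S i` is mapped to itself by
all automorphisms of `P`, and each round removes from the subposet `S i` only points with exactly
one upper cover in `S i`, or only points with exactly one lower cover in `S i`. -/
structure Peeling (P : Type*) [PartialOrder P] (r : ℕ) (S : ℕ → Set P) : Prop where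
  zero : S 0 = Set.univ
  sub : ∀ i < r, S (i + 1) ⊆ S i
  inv : ∀ i < r, ∀ g : P ≃o P, ∀ x ∈ S i, g x ∈ S i
  irr : ∀ i < r, S i \ S (i + 1) ⊆ UpIrr (S i) ∨ S i \ S (i + 1) ⊆ DownIrr (S i)

section Num
variable {P : Type*} [PartialOrder P] [Finite P]

theorem Peeling.retr {r : ℕ} {S : ℕ → Set P} (h : Peeling P r S) :
    ∀ i ≤ r, ∃ ρ : P →o P, (∀ x, ρ x ∈ S i) ∧ ∀ x ∈ S i, ρ x = x := by
  intro i
  induction i with
  | zero => intro _; exact ⟨OrderHom.id, fun x => by rw [h.zero]; trivial, fun x _ => rfl⟩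
  | succ i ih =>
    intro hi
    obtain ⟨ρ, h1, h2⟩ := ih (by omega)
    rcases h.irr i (by omega) with h3 | h3
    · exact retr_up (S i) (S (i + 1)) ρ (h.sub i (by omega)) h3 h1 h2
    · exact retr_down (S i) (S (i + 1)) ρ (h.sub i (by omega)) h3 h1 h2

theorem Peeling.round {r : ℕ} {S : ℕ → Set P} (h : Peeling P r S) (i : ℕ) (hi : i < r) :
    2 ^ (S i \ S (i + 1)).ncard * Nat.card (P ≃o P)
      ≤ Nat.card (P →o P) * ((S i)ᶜ.ncard).factorial := by
  obtain ⟨ρ, h1, h2⟩ := h.retr i hi.le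
  rcases h.irr i hi with h3 | h3
  · exact round_up (S i) (S (i + 1)) ρ (h.sub i hi) h3 (h.inv i hi) h1 h2
  · exact round_down (S i) (S (i + 1)) ρ (h.sub i hi) h3 (h.inv i hi) h1 h2

/-- `A = log₂ (|End P| / |Aut P|)` -/
noncomputable def ratLog (P : Type*) [PartialOrder P] : ℝ :=
  Real.logb 2 ((Nat.card (P →o P) : ℝ) / (Nat.card (P ≃o P) : ℝ))

theorem card_aut_pos : 0 < Nat.card (P ≃o P) := by
  have : Nonempty (P ≃o P) := ⟨OrderIso.refl P⟩
  exact Nat.card_pos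

theorem card_end_pos : 0 < Nat.card (P →o P) := by
  have : Nonempty (P →o P) := ⟨OrderHom.id⟩
  exact Nat.card_pos

theorem ratio_eq : (Nat.card (P ≃o P) : ℝ) / (Nat.card (P →o P) : ℝ) = 2 ^ (-(ratLog P)) := by
  have h1 : (0 : ℝ) < Nat.card (P ≃o P) := by exact_mod_cast card_aut_pos
  have h2 : (0 : ℝ) < Nat.card (P →o P) := by exact_mod_cast card_end_pos
  unfold ratLog
  rw [Real.rpow_neg (by norm_num), Real.rpow_logb (by norm_num) (by norm_num) (by positivity),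
    inv_div]

theorem Peeling.step_real {r : ℕ} {S : ℕ → Set P} (h : Peeling P r S) (i : ℕ) (hi : i < r) :
    ((S (i + 1))ᶜ.ncard : ℝ) ≤ ratLog P + (1 + Real.logb 2 (Nat.card P)) * ((S i)ᶜ.ncard : ℝ) := by
  have h0 := h.round i hi
  have hA : (0 : ℝ) < Nat.card (P ≃o P) := by exact_mod_cast card_aut_pos
  have hE : (0 : ℝ) < Nat.card (P →o P) := by exact_mod_cast card_end_pos
  have hB : ((S i)ᶜ).ncard ≤ Nat.card P := by
    simpa [Set.ncard_univ] using Set.ncard_le_ncard (Set.subset_univ ((S i)ᶜ))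
  have hfac : (((S i)ᶜ.ncard).factorial : ℝ) ≤ (Nat.card P : ℝ) ^ ((S i)ᶜ.ncard) := by
    have h1 : ((S i)ᶜ.ncard).factorial ≤ ((S i)ᶜ.ncard) ^ ((S i)ᶜ.ncard) := Nat.factorial_le_pow _
    have h2 : ((S i)ᶜ.ncard) ^ ((S i)ᶜ.ncard) ≤ (Nat.card P) ^ ((S i)ᶜ.ncard) :=
      Nat.pow_le_pow_left hB _
    exact_mod_cast h1.trans h2
  have h1 : (2 : ℝ) ^ ((S i \ S (i + 1)).ncard : ℝ) * Nat.card (P ≃o P)
      ≤ Nat.card (P →o P) * (Nat.card P : ℝ) ^ ((S i)ᶜ.ncard) := by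
    rw [Real.rpow_natCast]
    calc (2 : ℝ) ^ ((S i \ S (i + 1)).ncard) * Nat.card (P ≃o P)
        ≤ Nat.card (P →o P) * (((S i)ᶜ.ncard).factorial : ℝ) := by exact_mod_cast h0
      _ ≤ _ := mul_le_mul_of_nonneg_left hfac hE.le
  have h2 : (2 : ℝ) ^ ((S i \ S (i + 1)).ncard : ℝ)
      ≤ (Nat.card (P →o P) / Nat.card (P ≃o P)) * (Nat.card P : ℝ) ^ ((S i)ᶜ.ncard) := by
    rw [div_mul_eq_mul_div, le_div_iff₀ hA]
    exact h1
  have hsplit : (S (i + 1))ᶜ.ncard = (S i)ᶜ.ncard + (S i \ S (i + 1)).ncard := by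
    have hsub := h.sub i hi
    rw [← Set.ncard_union_eq (by
      rw [Set.disjoint_left]
      intro x hx hx2
      exact hx hx2.1)]
    congr 1
    ext x
    simp only [Set.mem_compl_iff, Set.mem_union, Set.mem_sdiff]
    constructor
    · intro hx
      by_cases hxS : x ∈ S i
      · exact Or.inr ⟨hxS, hx⟩
      · exact Or.inl hxS
    · rintro (hx | hx)
      · exact fun h => hx (hsub h)
      · exact hx.2
  rw [hsplit]
  push_cast
  rcases Nat.eq_zero_or_pos (Nat.card P) with hn | hn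
  · have hPe : IsEmpty P := (Nat.card_eq_zero.1 hn).resolve_right (fun h => h.not_finite ‹_›)
    have e1 : ∀ s : Set P, s.ncard = 0 := fun s => by
      rw [Set.eq_empty_of_isEmpty s]; simp
    have hr : 0 ≤ ratLog P := by
      unfold ratLog
      have : Nat.card (P →o P) = 1 := by
        rw [Nat.card_eq_one_iff_unique]
        exact ⟨⟨fun a b => by ext x; exact isEmptyElim x⟩, ⟨OrderHom.id⟩⟩
      have h' : Nat.card (P ≃o P) = 1 := by
        rw [Nat.card_eq_one_iff_unique]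
        exact ⟨⟨fun a b => by ext x; exact isEmptyElim x⟩, ⟨OrderIso.refl P⟩⟩
      simp [this, h']
    simp [e1, hr]
  · have hn' : (0 : ℝ) < Nat.card P := by exact_mod_cast hn
    have h3 := Real.logb_le_logb_of_le (b := 2) (by norm_num) (by positivity) h2
    rw [Real.logb_rpow (by norm_num) (by norm_num),
      Real.logb_mul (by positivity) (by positivity), Real.logb_pow] at h3
    change _ ≤ ratLog P + _ at h3
    linarith

theorem ratLog_nonneg : 0 ≤ ratLog P := by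
  unfold ratLog
  apply Real.logb_nonneg (by norm_num)
  have hA : (0 : ℝ) < Nat.card (P ≃o P) := by exact_mod_cast card_aut_pos
  rw [le_div_iff₀ hA, one_mul]
  have : Nat.card (P ≃o P) ≤ Nat.card (P →o P) :=
    Nat.card_le_card_of_injective (fun g : P ≃o P => (⟨g, g.monotone⟩ : P →o P)) (by
      intro g g' h
      ext x
      exact congrArg (fun f : P →o P => f x) h)
  exact_mod_cast this

theorem Peeling.main {r : ℕ} {S : ℕ → Set P} (h : Peeling P r S) :
    ∀ i ≤ r, ((S i)ᶜ.ncard : ℝ)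
      ≤ ratLog P * ∑ j ∈ Finset.range i, (1 + Real.logb 2 (Nat.card P)) ^ j := by
  intro i
  induction i with
  | zero => intro _; simp [h.zero]
  | succ i ih =>
    intro hi
    have h1 := h.step_real i (by omega)
    have h2 := ih (by omega)
    have hl : 0 ≤ Real.logb 2 (Nat.card P : ℝ) := by
      rcases Nat.eq_zero_or_pos (Nat.card P) with hn | hn
      · simp [hn]
      · exact Real.logb_nonneg (by norm_num) (by exact_mod_cast hn)
    rw [Finset.sum_range_succ']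
    calc ((S (i + 1))ᶜ.ncard : ℝ)
        ≤ ratLog P + (1 + Real.logb 2 (Nat.card P)) * ((S i)ᶜ.ncard : ℝ) := h1
      _ ≤ ratLog P + (1 + Real.logb 2 (Nat.card P)) *
          (ratLog P * ∑ j ∈ Finset.range i, (1 + Real.logb 2 (Nat.card P)) ^ j) := by
          gcongr
      _ = _ := by
          simp only [pow_succ, pow_zero]
          rw [← Finset.sum_mul]
          ring

theorem Peeling.ratio {r : ℕ} {S : ℕ → Set P} (h : Peeling P r S) :
    (Nat.card (P ≃o P) : ℝ) / (Nat.card (P →o P) : ℝ) ≤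
      2 ^ (-(((S r)ᶜ.ncard : ℝ) /
        ∑ j ∈ Finset.range r, (1 + Real.logb 2 (Nat.card P)) ^ j)) := by
  rw [ratio_eq]
  apply Real.rpow_le_rpow_of_exponent_le (by norm_num)
  rw [neg_le_neg_iff]
  have hl : 0 ≤ Real.logb 2 (Nat.card P : ℝ) := by
    rcases Nat.eq_zero_or_pos (Nat.card P) with hn | hn
    · simp [hn]
    · exact Real.logb_nonneg (by norm_num) (by exact_mod_cast hn)
  have hs : 0 ≤ ∑ j ∈ Finset.range r, (1 + Real.logb 2 (Nat.card P : ℝ)) ^ j :=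
    Finset.sum_nonneg (fun j _ => by positivity)
  exact div_le_of_le_mul₀ hs ratLog_nonneg (h.main r le_rfl)

end Num

end Pool.Agent.H82.AutConj
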