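import Pool.Agent.H82.AutConj.Sup

set_option autoImplicit false

namespace Pool.Agent.H82.AutConj

open Function OrderDual SimpleGraph

theorem tree_fix {V : Type*} [Finite V] (T : SimpleGraph V) (hT : T.IsTree) (g : V → V)
    (hinj : Injective g) (hadj : ∀ u v, T.Adj u v → T.Adj (g u) (g v))
    (hleaf : ∀ v, (∀ w w', T.Adj v w → T.Adj v w' → w = w') → g v = v) : ∀ v, g v = v := by
  classical
  have := Fintype.ofFinite V
  rcases subsingleton_or_nontrivial V with hsub | hnt
  · intro v; exact Subsingleton.elim _ _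
  obtain ⟨r, hr⟩ := hT.exists_vert_degree_one_of_nontrivial
  have hgr : g r = r := by
    apply hleaf
    rw [degree_eq_one_iff_existsUnique_adj] at hr
    intro w w' h1 h2
    exact hr.unique h1 h2
  choose p hp huniq using fun v => hT.existsUnique_path r v
  simp only at hp huniq
  let G : T →g T := ⟨g, fun {a b} h => hadj a b h⟩
  have hlen : ∀ v, (p (g v)).length = (p v).length := by
    intro v
    have h1 : (((p v).map G).copy hgr rfl).IsPath := by
      rw [Walk.isPath_copy]
      exact (hp v).map hinj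
    have h2 := huniq (g v) _ h1
    have h3 := congrArg Walk.length h2
    simpa using h3.symm
  have hext : ∀ v w, T.Adj v w → w ∉ (p v).support → (p w).length = (p v).length + 1 := by
    intro v w hvw hw
    have h1 : ((p v).concat hvw).IsPath := (hp v).concat hw hvw
    have h2 := huniq w _ h1
    rw [← h2, Walk.length_concat]
  by_contra hcon
  push Not at hcon
  obtain ⟨v0, hv0⟩ := hcon
  have hne0 : Nonempty {v // g v ≠ v} := ⟨⟨v0, hv0⟩⟩
  obtain ⟨⟨v, hv⟩, hmax⟩ := Finite.exists_max (fun v : {v // g v ≠ v} => (p v.1).length)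
  have hmax' : ∀ w, g w ≠ w → (p w).length ≤ (p v).length := fun w hw => hmax ⟨w, hw⟩
  have hnl : ¬ ∀ w w', T.Adj v w → T.Adj v w' → w = w' := fun h => hv (hleaf v h)
  push Not at hnl
  obtain ⟨w1, w2, h1, h2, hne⟩ := hnl
  have hex : ∃ w, T.Adj v w ∧ w ∉ (p v).support := by
    by_contra hc
    push Not at hc
    have e1 := hT.isAcyclic.eq_penultimate_of_adj_end (hp v) h1 (hc w1 h1)
    have e2 := hT.isAcyclic.eq_penultimate_of_adj_end (hp v) h2 (hc w2 h2)
    exact hne (e1.trans e2.symm)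
  obtain ⟨w, hvw, hw⟩ := hex
  have hlw := hext v w hvw hw
  have hgw : g w = w := by
    by_contra h
    have := hmax' w h
    omega
  have hadj' : T.Adj w (g v) := by
    have := hadj v w hvw
    rw [hgw] at this
    exact this.symm
  by_cases hs : g v ∈ (p w).support
  · have e1 := hT.isAcyclic.eq_penultimate_of_adj_end (hp w) hadj' hs
    have hs' : v ∈ (p w).support := by
      by_contra h
      have := hext w v hvw.symm h
      omega
    have e2 := hT.isAcyclic.eq_penultimate_of_adj_end (hp w) hvw.symm hs'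
    exact hv (e1.trans e2.symm)
  · have h3 := hext w (g v) hadj' hs
    have h4 := hlen v
    omega

section Sparse
variable {P : Type*} [PartialOrder P] [Finite P]

theorem mem_upIrr_univ {x : P} : x ∈ UpIrr (Set.univ : Set P) ↔ ∃! y, x ⋖ y := by
  constructor
  · rintro ⟨_, y, ⟨_, h1, h2⟩, hu⟩
    refine ⟨y, ⟨h1, fun z hz1 hz2 => h2 z trivial ⟨hz1, hz2⟩⟩, ?_⟩
    intro w hw
    exact hu w ⟨trivial, hw.1, fun z _ hz => hw.2 hz.1 hz.2⟩
  · rintro ⟨y, hy, hu⟩
    refine ⟨trivial, y, ⟨trivial, hy.1, fun z _ hz => hy.2 hz.1 hz.2⟩, ?_⟩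
    rintro w ⟨_, h1, h2⟩
    exact hu w ⟨h1, fun z hz1 hz2 => h2 z trivial ⟨hz1, hz2⟩⟩

theorem mem_downIrr_univ {x : P} : x ∈ DownIrr (Set.univ : Set P) ↔ ∃! y, y ⋖ x := by
  constructor
  · rintro ⟨_, y, ⟨_, h1, h2⟩, hu⟩
    refine ⟨y, ⟨h1, fun z hz1 hz2 => h2 z trivial ⟨hz1, hz2⟩⟩, ?_⟩
    intro w hw
    exact hu w ⟨trivial, hw.1, fun z _ hz => hw.2 hz.1 hz.2⟩
  · rintro ⟨y, hy, hu⟩
    refine ⟨trivial, y, ⟨trivial, hy.1, fun z _ hz => hy.2 hz.1 hz.2⟩, ?_⟩
    rintro w ⟨_, h1, h2⟩
    exact hu w ⟨h1, fun z hz1 hz2 => h2 z trivial ⟨hz1, hz2⟩⟩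

/-- a point of degree at most one (and at least one) in the Hasse diagram is irreducible -/
theorem leaf_irr {v w : P} (h : (hasse P).Adj v w)
    (hu : ∀ w w', (hasse P).Adj v w → (hasse P).Adj v w' → w = w') :
    v ∈ DownIrr (Set.univ : Set P) ∪ UpIrr (Set.univ : Set P) := by
  rcases h with h | h
  · right
    rw [mem_upIrr_univ]
    exact ⟨w, h, fun y hy => hu _ _ (Or.inl hy) (Or.inl h)⟩
  · left
    rw [mem_downIrr_univ]
    exact ⟨w, h, fun y hy => hu _ _ (Or.inr hy) (Or.inr h)⟩

theorem covBy_iso (g : P ≃o P) {a b : P} (h : a ⋖ b) : g a ⋖ g b := by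
  rwa [apply_covBy_apply_iff]

theorem hasse_iso (g : P ≃o P) {a b : P} (h : (hasse P).Adj a b) : (hasse P).Adj (g a) (g b) := by
  rcases h with h | h
  · exact Or.inl (covBy_iso g h)
  · exact Or.inr (covBy_iso g h)

/-- a set of at most `2 (e + 1 - n)` points that, with the irreducible points, is a base -/
theorem exists_base (hc : (hasse P).Connected) :
    ∃ B : Set P, B.ncard + 2 * Nat.card P ≤ 2 * ((hasse P).edgeSet.ncard + 1) ∧
      ∀ g : P ≃o P, (∀ x ∈ DownIrr (Set.univ : Set P) ∪ UpIrr (Set.univ : Set P), g x = x) →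
        (∀ x ∈ B, g x = x) → ∀ x, g x = x := by
  classical
  have := Fintype.ofFinite P
  obtain ⟨T, hTH, hT⟩ := hc.exists_isTree_le
  refine ⟨{v | ∃ w, (hasse P).Adj v w ∧ ¬ T.Adj v w}, ?_, ?_⟩
  · have h1 : T.edgeSet.ncard + 1 = Nat.card P := by
      have := hT.card_edgeFinset
      rw [Nat.card_eq_fintype_card, ← this, ← Set.ncard_coe_finset, coe_edgeFinset]
    have h2 : T.edgeSet ⊆ (hasse P).edgeSet := edgeSet_mono hTH
    have h3 : ((hasse P).edgeSet \ T.edgeSet).ncard + T.edgeSet.ncard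
        = (hasse P).edgeSet.ncard := Set.ncard_sdiff_add_ncard_of_subset h2
    have h4 : ({v | ∃ w, (hasse P).Adj v w ∧ ¬ T.Adj v w} : Set P).ncard
        ≤ 2 * ((hasse P).edgeSet \ T.edgeSet).ncard := by
      set E : Finset (Sym2 P) := ((hasse P).edgeSet \ T.edgeSet).toFinset with hE
      have h5 : ({v | ∃ w, (hasse P).Adj v w ∧ ¬ T.Adj v w} : Set P)
          ⊆ ((E.biUnion (fun e => e.toFinset) : Finset P) : Set P) := by
        rintro v ⟨w, hw1, hw2⟩
        simp only [Finset.coe_biUnion, Set.mem_iUnion, Finset.mem_coe]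
        refine ⟨s(v, w), ?_, ?_⟩
        · rw [hE, Set.mem_toFinset]
          exact ⟨hw1, hw2⟩
        · rw [Sym2.mem_toFinset]
          exact Sym2.mem_mk_left v w
      calc ({v | ∃ w, (hasse P).Adj v w ∧ ¬ T.Adj v w} : Set P).ncard
          ≤ ((E.biUnion (fun e => e.toFinset) : Finset P) : Set P).ncard :=
            Set.ncard_le_ncard h5
        _ = (E.biUnion (fun e => e.toFinset)).card := Set.ncard_coe_finset _
        _ ≤ E.card * 2 := by
            apply Finset.card_biUnion_le_card_mul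
            intro e _
            rw [Sym2.card_toFinset]
            split_ifs <;> omega
        _ = 2 * ((hasse P).edgeSet \ T.edgeSet).ncard := by
            rw [mul_comm, hE, Set.ncard_eq_toFinset_card']
    omega
  · intro g hI hB
    have hTg : ∀ u v, T.Adj u v → T.Adj (g u) (g v) := by
      intro u v huv
      by_contra hn
      have hH := hasse_iso g (hTH huv)
      have h1 : g (g u) = g u := hB _ ⟨g v, hH, hn⟩
      have h2 : g (g v) = g v := hB _ ⟨g u, hH.symm, fun h => hn h.symm⟩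
      rw [g.injective h1, g.injective h2] at hn
      exact hn huv
    apply tree_fix T hT g g.injective hTg
    intro v hv
    by_cases hBv : ∃ w, (hasse P).Adj v w ∧ ¬ T.Adj v w
    · exact hB v hBv
    · push Not at hBv
      rcases subsingleton_or_nontrivial P with hs | hnt
      · exact Subsingleton.elim _ _
      obtain ⟨w, hw⟩ := hc.preconnected.exists_adj_of_nontrivial v
      exact hI v (leaf_irr hw (fun a b ha hb => hv a b (hBv a ha) (hBv b hb)))

end Sparse

end Pool.Agent.H82.AutConj
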